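import Pool.Agent.Lib.MP_9cfc0a_nt.ZDBasic

/-!
# Two-sided law for V(x; q): definitions
-/

set_option autoImplicit false

namespace Pool.Agent.TS

open Complex Metric Set MeasureTheory
open Pool.Agent.EM

/-- the zeros with `σ ≤ Re ρ` and `|Im ρ| ≤ T` of the entire function `FF q χ` (this is `L(s, χ)`,
times `s - 1` for the principal character); they all have `Re ρ < 1` (`ZD_FF_ne`) -/
def Zs {q : ℕ} [NeZero q] (χ : DirichletCharacter ℂ q) (σ T : ℝ) : Set ℂ :=
  {ρ | MC.FF q χ ρ = 0 ∧ σ ≤ ρ.re ∧ |ρ.im| ≤ T}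

/-- the multiplicity of the zero `ρ` -/
noncomputable def mu {q : ℕ} [NeZero q] (χ : DirichletCharacter ℂ q) (ρ : ℂ) : ℝ :=
  (analyticOrderNatAt (MC.FF q χ) ρ : ℝ)

open scoped Classical in
/-- the Mellin transform of `gC χ`, continued to the left -/
noncomputable def MM {q : ℕ} [NeZero q] (χ : DirichletCharacter ℂ q) (s : ℂ) : ℂ :=
  -(logDeriv (MC.FF q χ) s + (if χ = 1 then 1 else 0)) / s

/-- the function whose integral over a vertical line is `Ft` -/
noncomputable def Psi {q : ℕ} [NeZero q] (χ : DirichletCharacter ℂ q) (B x t : ℝ) (s : ℂ) : ℂ :=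
  Complex.exp ((B : ℂ) ^ 2 * (s - (1 / 2 + t * I)) ^ 2 / 2) * (x : ℂ) ^ (s - (1 / 2 + t * I)) *
    MM χ s

/-- `gC χ` with a Gaussian window around `log y = log x`, of width `B` -/
noncomputable def Gw {q : ℕ} (χ : DirichletCharacter ℂ q) (B x : ℝ) (y : ℝ) : ℂ :=
  gC χ y * ((Real.exp (-(Real.log y - Real.log x) ^ 2 / (2 * B ^ 2)) : ℝ) : ℂ)

/-- localized Fourier transform of `gC χ y / y^(1/2)` near `y = x` -/
noncomputable def Ft {q : ℕ} (χ : DirichletCharacter ℂ q) (B x t : ℝ) : ℂ :=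
  MC.MT (Gw χ B x) (1 / 2 + t * I)

end Pool.Agent.TS
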