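import Pool.Agent.Lib.MP_9cfc0a_nt.TS.Defs2

/-!
# Ag: from FF to the L-function
-/

set_option autoImplicit false

namespace Pool.Agent.TS

open Complex Metric Set MeasureTheory
open Pool.Agent.EM

/-- Ag1. PROOF. `ZD_FF_zero` (`→`), and for `←`: `FF = L` for `χ ≠ 1` (`MC.FF_of_ne`),
`FF s = (s - 1) L(s)` for `χ = 1` (`MC.FF_one_apply`, `s ≠ 1` since `Re s < 1`); `Zf_re_lt`. -/
lemma mem_Zf_iff {q : ℕ} [NeZero q] (χ : DirichletCharacter ℂ q) (σ T : ℝ) (ρ : ℂ) :
    ρ ∈ Zf χ σ T ↔ χ.LFunction ρ = 0 ∧ σ ≤ ρ.re ∧ ρ.re < 1 ∧ |ρ.im| ≤ T := by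
  rw [mem_Zf]
  constructor
  · rintro ⟨h0, h1, h2⟩
    have hlt := Zf_re_lt χ ρ h0
    refine ⟨?_, h1, hlt, h2⟩
    by_cases hχ : χ = 1
    · subst hχ
      have hρ : ρ ≠ 1 := by
        rintro rfl
        simp at hlt
      rw [MC.FF_one_apply q ρ hρ] at h0
      exact (mul_eq_zero.1 h0).resolve_left (sub_ne_zero.2 hρ)
    · rwa [MC.FF_of_ne q χ hχ] at h0
  · rintro ⟨h0, h1, hlt, h2⟩
    exact ⟨ZD_FF_zero q χ ρ hlt h0, h1, h2⟩

/-- Ag2. PROOF. For `χ ≠ 1` the functions are equal. For `χ = 1` near `ρ` (`ρ ≠ 1`)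
`FF s = (s - 1) L(s)` (`MC.FF_one_apply`), and `s - 1` is analytic and not zero at `ρ`:
`analyticOrderAt_mul` (order of `s - 1` is `0`), `analyticOrderAt_congr`. `L` is analytic at `ρ ≠ 1`
(differentiable on the open set `{s ≠ 1}`: `DirichletCharacter.differentiableAt_LFunction`,
`DifferentiableOn.analyticAt`). -/
lemma mu_eq {q : ℕ} [NeZero q] (χ : DirichletCharacter ℂ q) (ρ : ℂ) (h : ρ.re < 1) :
    mu χ ρ = (analyticOrderNatAt χ.LFunction ρ : ℝ) := by
  unfold mu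
  by_cases hχ : χ = 1
  · subst hχ
    have hρ : ρ ≠ 1 := by
      rintro rfl
      simp at h
    have hopen : IsOpen {s : ℂ | s ≠ 1} := isOpen_ne
    have hL : AnalyticAt ℂ (DirichletCharacter.LFunction (1 : DirichletCharacter ℂ q)) ρ := by
      refine DifferentiableOn.analyticAt (s := {s : ℂ | s ≠ 1}) ?_ (hopen.mem_nhds hρ)
      intro z hz
      exact (DirichletCharacter.differentiableAt_LFunction _ z (Or.inl hz)).differentiableWithinAt
    have hs : AnalyticAt ℂ (fun s : ℂ => s - 1) ρ := analyticAt_id.sub analyticAt_const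
    have h1 : MC.FF q 1 =ᶠ[nhds ρ]
        (fun s : ℂ => s - 1) * DirichletCharacter.LFunction (1 : DirichletCharacter ℂ q) := by
      filter_upwards [hopen.mem_nhds hρ] with z hz
      exact MC.FF_one_apply q z hz
    have h2 : analyticOrderAt (fun s : ℂ => s - 1) ρ = 0 :=
      (hs.analyticOrderAt_eq_zero).2 (sub_ne_zero.2 hρ)
    have h3 : analyticOrderAt (MC.FF q 1) ρ =
        analyticOrderAt (DirichletCharacter.LFunction (1 : DirichletCharacter ℂ q)) ρ := by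
      rw [analyticOrderAt_congr h1, analyticOrderAt_mul hs hL, h2, zero_add]
    unfold analyticOrderNatAt
    rw [h3]
  · rw [MC.FF_of_ne q χ hχ]

end Pool.Agent.TS
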