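import Pool.Agent.Lib.MP_9cfc0a_nt.TS.Defs

/-!
# Lc: the zeros in a bounded region are finitely many
-/

set_option autoImplicit false

namespace Pool.Agent.TS

open Complex Metric Set MeasureTheory
open Pool.Agent.EM

private lemma Lc_anal {q : ℕ} [NeZero q] (χ : DirichletCharacter ℂ q) :
    AnalyticOnNhd ℂ (MC.FF q χ) Set.univ := fun z _ =>
  (MC.FF_differentiable q χ).analyticAt z

private lemma Lc_two {q : ℕ} [NeZero q] (χ : DirichletCharacter ℂ q) : MC.FF q χ 2 ≠ 0 :=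
  ZD_FF_ne q χ 2 (by norm_num)

/-- Lc1. PROOF. `FF q χ` is entire (`MC.FF_differentiable`), so analytic, and not zero at `2`
(`ZD_FF_ne`), so its zeros are isolated: if infinitely many zeros were in the compact set
`[σ, 1] ×ℂ [-T, T]` (all zeros of `Zs` have `Re < 1` by `ZD_FF_ne`), they would accumulate at a
point (`Set.Infinite.exists_accPt_of_subset_isCompact`), and then
`AnalyticOnNhd.eqOn_zero_of_preconnected_of_frequently_eq_zero` gives `FF = 0` everywhere. -/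
lemma Zs_finite {q : ℕ} [NeZero q] (χ : DirichletCharacter ℂ q) (σ T : ℝ) :
    (Zs χ σ T).Finite := by
  by_contra hinf
  have hK : IsCompact (Icc σ 1 ×ℂ Icc (-T) T) := isCompact_Icc.reProdIm isCompact_Icc
  have hsub : Zs χ σ T ⊆ Icc σ 1 ×ℂ Icc (-T) T := by
    rintro z ⟨h0, h1, h2⟩
    rw [mem_reProdIm]
    refine ⟨⟨h1, ?_⟩, abs_le.1 h2⟩
    by_contra h3
    exact ZD_FF_ne q χ z (le_of_lt (not_le.1 h3)) h0
  obtain ⟨x, -, hx⟩ := Set.Infinite.exists_accPt_of_subset_isCompact hinf hK hsub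
  rw [accPt_iff_frequently_nhdsNE] at hx
  have h4 := (Lc_anal χ).eqOn_zero_of_preconnected_of_frequently_eq_zero isPreconnected_univ
    (mem_univ x) (hx.mono fun z hz => hz.1)
  exact Lc_two χ (h4 (mem_univ 2))

/-- Lc2. PROOF. the order is not `0` (`AnalyticAt.analyticOrderAt_eq_zero`, value zero) and not
`⊤` (otherwise `FF = 0` near `ρ` and then everywhere, by the identity theorem
`AnalyticOnNhd.eqOn_zero_of_preconnected_of_eventuallyEq_zero`; but `FF 2 ≠ 0`). -/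
lemma one_le_mu {q : ℕ} [NeZero q] (χ : DirichletCharacter ℂ q) (ρ : ℂ)
    (h : MC.FF q χ ρ = 0) : 1 ≤ mu χ ρ := by
  have ha : AnalyticAt ℂ (MC.FF q χ) ρ := Lc_anal χ ρ (mem_univ _)
  have h1 : analyticOrderAt (MC.FF q χ) ρ ≠ 0 := fun h0 => ha.analyticOrderAt_eq_zero.1 h0 h
  have h2 : analyticOrderAt (MC.FF q χ) ρ ≠ ⊤ := by
    intro h0
    have h3 := (Lc_anal χ).eqOn_zero_of_preconnected_of_eventuallyEq_zero isPreconnected_univ
      (mem_univ ρ) (analyticOrderAt_eq_top.1 h0)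
    exact Lc_two χ (h3 (mem_univ 2))
  have h3 : analyticOrderNatAt (MC.FF q χ) ρ ≠ 0 := by
    intro h0
    rcases (ENat.toNat_eq_zero.1 h0) with h4 | h4
    · exact h1 h4
    · exact h2 h4
  have h4 : 1 ≤ analyticOrderNatAt (MC.FF q χ) ρ := Nat.one_le_iff_ne_zero.2 h3
  change (1 : ℝ) ≤ ((analyticOrderNatAt (MC.FF q χ) ρ : ℕ) : ℝ)
  exact_mod_cast h4

end Pool.Agent.TS
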