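import Pool.Agent.Lib.MP_9cfc0a_nt.TS.Lg

/-!
# Li: the test functions and their Gram matrix
-/

set_option autoImplicit false

namespace Pool.Agent.TS

open Complex Metric Set MeasureTheory
open Pool.Agent.EM

/-- the test functions -/
noncomputable def hh (σ : ℝ) (j : ℕ) (ρ : ℂ) (x : ℝ) : ℂ :=
  ((Real.log x ^ j / (j.factorial : ℝ) : ℝ) : ℂ) * (x : ℂ) ^ (-(ρ + 5 / 2)) *
    ((x ^ (1 / 2 + σ) : ℝ) : ℂ)

lemma hh_measurable (σ : ℝ) (j : ℕ) (ρ : ℂ) : Measurable (hh σ j ρ) := by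
  unfold hh
  fun_prop

/-- the norm of the test functions -/
lemma Li_norm (σ : ℝ) (j : ℕ) (ρ : ℂ) (x : ℝ) (hx : 1 < x) :
    ‖hh σ j ρ x‖ = Real.log x ^ j / (j.factorial : ℝ) * x ^ (-(ρ.re + 5 / 2)) * x ^ (1 / 2 + σ) := by
  have hx0 : 0 < x := by linarith
  have hl : 0 ≤ Real.log x := Real.log_nonneg hx.le
  have h1 : (-(ρ + 5 / 2)).re = -(ρ.re + 5 / 2) := by simp
  unfold hh
  rw [norm_mul, norm_mul, Complex.norm_cpow_eq_rpow_re_of_pos hx0, h1, Complex.norm_real,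
    Complex.norm_real, Real.norm_of_nonneg (by positivity), Real.norm_of_nonneg (by positivity)]

/-- Li1. PROOF. `‖hh σ j ρ x‖² = ((log x)^j / j!)² x^(-2 Re ρ - 5 + 1 + 2 σ)` for `x > 1`, and
`2 σ ≤ 2 Re ρ`: at most `(log x)^(2j) x^(-4)`, integrable by `integral_log_pow` (`w = 3`, norm) or
`W1_log_pow`. -/
lemma hh_sq_integrable (σ : ℝ) (j : ℕ) (ρ : ℂ) (h : σ ≤ ρ.re) :
    IntegrableOn (fun x => ‖hh σ j ρ x‖ ^ 2) (Ioi 1) := by
  have h1 := (integral_log_pow (2 * j) 3 (by norm_num)).1.norm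
  refine Integrable.mono' h1 ?_ ?_
  · exact ((hh_measurable σ j ρ).norm.pow_const 2).aestronglyMeasurable
  · refine (ae_restrict_iff' measurableSet_Ioi).mpr (Filter.Eventually.of_forall fun x hx => ?_)
    have hx1 : 1 < x := hx
    have hx0 : 0 < x := by linarith
    have hl : 0 ≤ Real.log x := Real.log_nonneg hx1.le
    have hfac : (1 : ℝ) ≤ j.factorial := by exact_mod_cast j.factorial_pos
    have h4 : (-((3 : ℂ) + 1)).re = -4 := by norm_num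
    rw [norm_mul, Complex.norm_cpow_eq_rpow_re_of_pos hx0, h4, norm_pow, norm_pow,
      Complex.norm_real, Real.norm_of_nonneg hl, norm_norm, Li_norm σ j ρ x hx1]
    have h5 : Real.log x ^ j / (j.factorial : ℝ) ≤ Real.log x ^ j :=
      div_le_self (by positivity) hfac
    have h6 : x ^ (-(ρ.re + 5 / 2)) * x ^ (1 / 2 + σ) ≤ x ^ (-2 : ℝ) := by
      rw [← Real.rpow_add hx0]
      exact Real.rpow_le_rpow_of_exponent_le hx1.le (by linarith)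
    have h7 : x ^ (-4 : ℝ) = x ^ (-2 : ℝ) * x ^ (-2 : ℝ) := by
      rw [← Real.rpow_add hx0]; norm_num
    have h8 : 0 ≤ x ^ (-(ρ.re + 5 / 2)) * x ^ (1 / 2 + σ) := by positivity
    calc (Real.log x ^ j / (j.factorial : ℝ) * x ^ (-(ρ.re + 5 / 2)) * x ^ (1 / 2 + σ)) ^ 2
        = (Real.log x ^ j / (j.factorial : ℝ)) ^ 2 *
            (x ^ (-(ρ.re + 5 / 2)) * x ^ (1 / 2 + σ)) ^ 2 := by ring
      _ ≤ (Real.log x ^ j) ^ 2 * (x ^ (-2 : ℝ)) ^ 2 := by gcongr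
      _ = Real.log x ^ (2 * j) * x ^ (-4 : ℝ) := by rw [h7, pow_mul']; ring

/-- Li2. PROOF. For `x > 1` the product is
`((log x)^(2j) / (j!)²) x^(-(w+1))` with `w = ρ + conj ρ' + 3 - 2 σ` (`conj (x^s) = x^(conj s)` for
`x > 0`: `Complex.cpow_conj` or through `exp`), `Re w = Re ρ + Re ρ' + 3 - 2 σ ≥ 3`,
`Im w = Im ρ - Im ρ'`, so `‖w‖² ≥ 9 + d²`, `d = Im ρ - Im ρ'`. By `integral_log_pow` the integral is
`(2j)!/(j!)² / w^(2j+1)`, and `(2j)!/(j!)² = Nat.centralBinom j ≤ 4^j` (`Nat.centralBinom_lt_four_pow`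
or `Nat.four_pow...`, `Nat.choose_le...`: `Nat.sum_range_choose`). So the norm is at most
`4^j / (‖w‖^(2j) · 3) ≤ (1/3) (4/9)^j (9/(9+d²))^j ≤ (4/9)^j · 9/(9+d²)` since `j ≥ 1` and
`9/(9+d²) ≤ 1`. -/
lemma gram_bound (σ : ℝ) (j : ℕ) (hj : 1 ≤ j) (ρ ρ' : ℂ) (h1 : σ ≤ ρ.re) (h2 : σ ≤ ρ'.re) :
    ‖∫ x in Ioi (1 : ℝ), hh σ j ρ x * (starRingEnd ℂ) (hh σ j ρ' x)‖
      ≤ (2 / 3 : ℝ) ^ (2 * j) * (9 / (9 + (ρ'.im - ρ.im) ^ 2)) := by
  set w : ℂ := ρ + (starRingEnd ℂ) ρ' + 3 - 2 * (σ : ℂ) with hw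
  have hwre : w.re = ρ.re + ρ'.re + 3 - 2 * σ := by simp [hw]
  have hwim : w.im = ρ.im - ρ'.im := by simp [hw]; ring
  have hw3 : 3 ≤ w.re := by rw [hwre]; linarith
  have hfac : (0 : ℝ) < j.factorial := by exact_mod_cast j.factorial_pos
  have hpt : ∀ x ∈ Ioi (1 : ℝ), hh σ j ρ x * (starRingEnd ℂ) (hh σ j ρ' x) =
      (((j.factorial : ℝ) ^ 2 : ℝ) : ℂ)⁻¹ *
        ((Real.log x : ℂ) ^ (2 * j) * (x : ℂ) ^ (-(w + 1))) := by
    intro x hx
    have hx1 : 1 < x := hx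
    have hx0 : 0 < x := by linarith
    have hxc : (x : ℂ) ≠ 0 := by exact_mod_cast hx0.ne'
    have hconj : (starRingEnd ℂ) ((x : ℂ) ^ (-(ρ' + 5 / 2))) =
        (x : ℂ) ^ (-((starRingEnd ℂ) ρ' + 5 / 2)) := by
      have h5 := Complex.cpow_conj (x : ℂ) (-(ρ' + 5 / 2)) (by
        rw [Complex.arg_ofReal_of_nonneg hx0.le]
        exact Real.pi_pos.ne)
      rw [Complex.conj_ofReal] at h5
      rw [← h5]
      congr 1
      have h6 : (5 / 2 : ℂ) = ((5 / 2 : ℝ) : ℂ) := by push_cast; rfl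
      rw [map_neg, map_add, h6, Complex.conj_ofReal]
    unfold hh
    rw [map_mul, map_mul, Complex.conj_ofReal, Complex.conj_ofReal, hconj, Complex.ofReal_cpow hx0.le]
    have hexp : (x : ℂ) ^ (-(w + 1)) = (x : ℂ) ^ (-(ρ + 5 / 2)) *
        (x : ℂ) ^ (-((starRingEnd ℂ) ρ' + 5 / 2)) * ((x : ℂ) ^ (((1 / 2 + σ : ℝ)) : ℂ)) *
        ((x : ℂ) ^ (((1 / 2 + σ : ℝ)) : ℂ)) := by
      rw [← Complex.cpow_add _ _ hxc, ← Complex.cpow_add _ _ hxc, ← Complex.cpow_add _ _ hxc]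
      congr 1
      rw [hw]
      push_cast
      ring
    rw [hexp]
    push_cast
    rw [pow_mul']
    field_simp
  have hI := (integral_log_pow (2 * j) w (by linarith)).2
  rw [setIntegral_congr_fun measurableSet_Ioi hpt, integral_const_mul, hI, norm_mul, norm_inv,
    Complex.norm_real, Real.norm_of_nonneg (by positivity), norm_div, norm_pow,
    Complex.norm_natCast]
  -- the central binomial coefficient
  have hcb : ((2 * j).factorial : ℝ) ≤ 4 ^ j * (j.factorial : ℝ) ^ 2 := by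
    have e1 := Nat.choose_mul_factorial_mul_factorial (show j ≤ 2 * j by omega)
    have e2 : (2 * j).choose j ≤ 2 ^ (2 * j) := Nat.choose_le_two_pow _ _
    have e3 : 2 * j - j = j := by omega
    rw [e3] at e1
    have e4 : (2 * j).factorial ≤ 2 ^ (2 * j) * j.factorial * j.factorial := by
      rw [← e1]
      gcongr
    have e5 : ((2 * j).factorial : ℝ) ≤ 2 ^ (2 * j) * j.factorial * j.factorial := by
      exact_mod_cast e4
    calc ((2 * j).factorial : ℝ) ≤ 2 ^ (2 * j) * j.factorial * j.factorial := e5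
      _ = 4 ^ j * (j.factorial : ℝ) ^ 2 := by rw [pow_mul]; norm_num; ring
  set d : ℝ := ρ'.im - ρ.im with hd
  have hw2 : 9 + d ^ 2 ≤ ‖w‖ ^ 2 := by
    rw [Complex.sq_norm, Complex.normSq_apply, hwim]
    have : ρ.im - ρ'.im = -d := by rw [hd]; ring
    rw [this]
    nlinarith
  have hwn3 : 3 ≤ ‖w‖ := hw3.trans (Complex.re_le_norm w)
  have hd0 : 0 < 9 + d ^ 2 := by positivity
  have hwp : (9 + d ^ 2) ^ j * 3 ≤ ‖w‖ ^ (2 * j + 1) := by
    rw [pow_succ ‖w‖, pow_mul ‖w‖]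
    gcongr
  have ht1 : 9 / (9 + d ^ 2) ≤ 1 := by
    rw [div_le_one hd0]
    nlinarith [sq_nonneg d]
  have ht0 : 0 ≤ 9 / (9 + d ^ 2) := by positivity
  have htj : (9 / (9 + d ^ 2)) ^ j ≤ 9 / (9 + d ^ 2) := by
    calc (9 / (9 + d ^ 2)) ^ j ≤ (9 / (9 + d ^ 2)) ^ 1 := pow_le_pow_of_le_one ht0 ht1 hj
      _ = _ := pow_one _
  calc ((j.factorial : ℝ) ^ 2)⁻¹ * (((2 * j).factorial : ℝ) / ‖w‖ ^ (2 * j + 1))
      ≤ ((j.factorial : ℝ) ^ 2)⁻¹ * ((4 ^ j * (j.factorial : ℝ) ^ 2) / ((9 + d ^ 2) ^ j * 3)) := by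
        gcongr
    _ = 1 / 3 * ((4 / 9 : ℝ) ^ j * (9 / (9 + d ^ 2)) ^ j) := by
        rw [div_pow, div_pow]
        field_simp
    _ ≤ 1 * ((4 / 9 : ℝ) ^ j * (9 / (9 + d ^ 2))) := by
        gcongr
        norm_num
    _ = (2 / 3 : ℝ) ^ (2 * j) * (9 / (9 + d ^ 2)) := by
        rw [one_mul, pow_mul]
        norm_num

end Pool.Agent.TS
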