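import Pool.Agent.Lib.MP_9cfc0a_nt.TS.Fa
import Pool.Agent.Lib.MP_9cfc0a_nt.Mg.G071

/-!
# Fb: the two-sided law
-/

set_option autoImplicit false

namespace Pool.Agent.TS

open Complex Metric Set MeasureTheory
open Pool.Agent.EM

/-- sum over dyadic intervals -/
lemma dyadic_sum (q : ℕ) (σ B : ℝ) (hσ : 1 / 2 ≤ σ) (N : ℕ)
    (h : ∀ i < N, ∫ y in Ioc ((2 : ℝ) ^ i) (2 * 2 ^ i), V y q * y ^ (-1 - 2 * σ) ≤ B) :
    ∫ y in Ioc 1 ((2 : ℝ) ^ N), V y q * y ^ (-1 - 2 * σ) ≤ N * B := by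
  induction N with
  | zero => simp
  | succ N ih =>
    have h1 := ih fun i hi => h i (by omega)
    have h2 := h N (by omega)
    have hN : (1 : ℝ) ≤ 2 ^ N := one_le_pow₀ (by norm_num)
    have hN2 : (2 : ℝ) ^ N ≤ 2 ^ (N + 1) := by
      rw [pow_succ]; linarith
    have hunion : Ioc (1 : ℝ) (2 ^ (N + 1)) = Ioc 1 (2 ^ N) ∪ Ioc (2 ^ N) (2 ^ (N + 1)) :=
      (Ioc_union_Ioc_eq_Ioc hN hN2).symm
    rw [hunion, setIntegral_union (Ioc_disjoint_Ioc_of_le le_rfl) measurableSet_Ioc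
      (integrable_V_window' q σ 1 _ hσ le_rfl) (integrable_V_window' q σ _ _ hσ hN)]
    have h3 : (2 : ℝ) ^ (N + 1) = 2 * 2 ^ N := by ring
    rw [h3]
    push_cast
    linarith

/-- Upper bound. -/
lemma upper_full (ε : ℝ) (hε : 0 < ε) : ∃ X₁ : ℝ, 1 ≤ X₁ ∧
    ∀ (q : ℕ) [NeZero q] (X σ : ℝ), (q : ℝ) ≤ X → X₁ ≤ X → 1 / 2 ≤ σ →
    ∫ y in Ioc 1 X, V y q * y ^ (-1 - 2 * σ)
      ≤ X ^ ε * (1 + ZZ q σ X X / (Nat.totient q : ℝ)) := by
  obtain ⟨X₁, hX₁, hU⟩ := upper_dyadic (ε / 2) (by linarith)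
  obtain ⟨X₃, hX₃⟩ := Filter.eventually_atTop.mp ((evX_log 4 (ε / 2) (by linarith)).and
    (evX_const 2 (ε / 2) (by linarith)))
  refine ⟨max X₁ X₃, le_trans hX₁ (le_max_left _ _), fun q _ X σ hqX hX hσ => ?_⟩
  have hXa : X₁ ≤ X := le_trans (le_max_left _ _) hX
  have hXc : X₃ ≤ X := le_trans (le_max_right _ _) hX
  have hX1 : 1 ≤ X := hX₁.trans hXa
  have hX0 : 0 < X := by linarith
  obtain ⟨hlog, hconst⟩ := hX₃ X hXc
  obtain ⟨n, hn1, hn2⟩ := exists_nat_pow_near hX1 (by norm_num : (1 : ℝ) < 2)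
  have hZ0 := ZZ_nonneg q σ X X hX0.le
  set B : ℝ := X ^ (ε / 2) * (1 + ZZ q σ X X / (Nat.totient q : ℝ)) with hB
  have hB0 : 0 ≤ B := by positivity
  have h1 := dyadic_sum q σ B hσ (n + 1) (fun i hi => by
    have hi2 : (2 : ℝ) ^ i ≤ 2 ^ n := pow_le_pow_right₀ (by norm_num) (by omega)
    exact hU q X (2 ^ i) σ hqX hXa hσ (one_le_pow₀ (by norm_num)) (hi2.trans hn1))
  have h2 : ∫ y in Ioc 1 X, V y q * y ^ (-1 - 2 * σ)
      ≤ ∫ y in Ioc 1 ((2 : ℝ) ^ (n + 1)), V y q * y ^ (-1 - 2 * σ) := by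
    refine setIntegral_mono_set (integrable_V_window' q σ 1 _ hσ le_rfl) ?_
      (ae_of_all _ (Ioc_subset_Ioc_right hn2.le))
    refine (ae_restrict_iff' measurableSet_Ioc).mpr (ae_of_all _ fun y hy => ?_)
    have hy0 : 0 < y := by linarith [hy.1]
    have := V_nonneg y q
    simp only [Pi.zero_apply]
    positivity
  have h3 : ((n + 1 : ℕ) : ℝ) ≤ X ^ (ε / 2) := by
    have h4 : (n : ℝ) * Real.log 2 ≤ Real.log X := by
      rw [← Real.log_pow]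
      exact Real.log_le_log (by positivity) hn1
    have h5 : (0.5 : ℝ) ≤ Real.log 2 := by
      have := Real.log_two_gt_d9
      linarith
    have h6 : (n : ℝ) * 0.5 ≤ (n : ℝ) * Real.log 2 := by gcongr
    push_cast
    linarith
  calc ∫ y in Ioc 1 X, V y q * y ^ (-1 - 2 * σ)
      ≤ _ := h2
    _ ≤ ((n + 1 : ℕ) : ℝ) * B := h1
    _ ≤ X ^ (ε / 2) * B := by gcongr
    _ = X ^ ε * (1 + ZZ q σ X X / (Nat.totient q : ℝ)) := by
        rw [hB, ← mul_assoc, ← Real.rpow_add hX0]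
        congr 2
        ring

/-- The two-sided law. -/
theorem two_sided (A : ℕ) (ε : ℝ) (hε : 0 < ε) : ∃ (K : ℕ) (X₀ : ℝ), 1 ≤ K ∧ 1 ≤ X₀ ∧
    ∀ (q : ℕ) [NeZero q] (X T σ : ℝ), (q : ℝ) ≤ X → X₀ ≤ X → 1 / 2 ≤ σ →
    (X ≤ T → ∫ y in Ioc 1 X, V y q * y ^ (-1 - 2 * σ)
      ≤ X ^ ε * (1 + ZZ q σ T X / (Nat.totient q : ℝ))) ∧
    (T ≤ X ^ A → ZZ q σ T X / (Nat.totient q : ℝ)
      ≤ X ^ ε * ∫ y in Ioc X (X ^ K), V y q * y ^ (-1 - 2 * σ)) := by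
  obtain ⟨X₁, hX₁, hU⟩ := upper_full ε hε
  obtain ⟨K, X₂, hK, hX₂, hL⟩ := all_lower A ε hε
  refine ⟨K, max X₁ X₂, hK, hX₁.trans (le_max_left _ _), fun q _ X T σ hqX hX hσ => ?_⟩
  have hXa : X₁ ≤ X := le_trans (le_max_left _ _) hX
  have hXb : X₂ ≤ X := le_trans (le_max_right _ _) hX
  have hX1 : 1 ≤ X := hX₁.trans hXa
  have hX0 : 0 < X := by linarith
  have htot : (0 : ℝ) < Nat.totient q := by
    exact_mod_cast Nat.totient_pos.mpr (Nat.pos_of_ne_zero (NeZero.ne q))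
  refine ⟨fun hXT => (hU q X σ hqX hXa hσ).trans ?_, fun hTA => ?_⟩
  · have := ZZ_mono q σ X T X hX0.le hXT
    gcongr
  · rw [div_le_iff₀ htot]
    calc ZZ q σ T X ≤ ZZ q σ (X ^ A) X := ZZ_mono q σ T (X ^ A) X hX0.le hTA
      _ ≤ X ^ ε * ((Nat.totient q : ℝ) * ∫ x in Ioc X (X ^ K), V x q * x ^ (-1 - 2 * σ)) :=
          hL q X σ hqX hXb hσ
      _ = _ := by ring

/-- The variance never drops. -/
theorem never_drops (ε : ℝ) (hε : 0 < ε) : ∃ (K : ℕ) (X₀ : ℝ), 1 ≤ K ∧ 1 ≤ X₀ ∧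
    ∀ (q : ℕ) [NeZero q] (X σ : ℝ), (q : ℝ) ≤ X → X₀ ≤ X → 1 / 2 ≤ σ →
    ∫ y in Ioc 1 X, V y q * y ^ (-1 - 2 * σ)
      ≤ X ^ ε * (1 + ∫ y in Ioc X (X ^ K), V y q * y ^ (-1 - 2 * σ)) := by
  obtain ⟨K, X₀, hK, hX₀, h⟩ := two_sided 1 (ε / 2) (by linarith)
  refine ⟨K, X₀, hK, hX₀, fun q _ X σ hqX hX hσ => ?_⟩
  have hX1 : 1 ≤ X := hX₀.trans hX
  have hX0 : 0 < X := by linarith
  obtain ⟨h1, h2⟩ := h q X X σ hqX hX hσ
  have h1 := h1 le_rfl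
  have h2 := h2 (by rw [pow_one])
  have hI : 0 ≤ ∫ y in Ioc X (X ^ K), V y q * y ^ (-1 - 2 * σ) :=
    setIntegral_nonneg measurableSet_Ioc fun y hy => by
      have hy0 : 0 < y := by linarith [hy.1]
      have := V_nonneg y q
      positivity
  have hp : (1 : ℝ) ≤ X ^ (ε / 2) := Real.one_le_rpow hX1 (by linarith)
  calc ∫ y in Ioc 1 X, V y q * y ^ (-1 - 2 * σ)
      ≤ X ^ (ε / 2) * (1 + ZZ q σ X X / (Nat.totient q : ℝ)) := h1
    _ ≤ X ^ (ε / 2) * (X ^ (ε / 2) * 1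
        + X ^ (ε / 2) * ∫ y in Ioc X (X ^ K), V y q * y ^ (-1 - 2 * σ)) := by
        gcongr
        linarith
    _ = (X ^ (ε / 2) * X ^ (ε / 2)) * (1 + ∫ y in Ioc X (X ^ K), V y q * y ^ (-1 - 2 * σ)) := by
        ring
    _ = X ^ ε * (1 + ∫ y in Ioc X (X ^ K), V y q * y ^ (-1 - 2 * σ)) := by
        rw [← Real.rpow_add hX0]
        congr 2
        ring

/-- The variance never drops, large moduli. -/
theorem never_drops_large : ∃ N : ℕ, ∀ ε : ℝ, 0 < ε → ∃ (K : ℕ) (X₀ : ℝ), 1 ≤ K ∧ 1 ≤ X₀ ∧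
    ∀ (q : ℕ) [NeZero q] (X : ℝ), N ≤ q → (q : ℝ) ≤ X → X₀ ≤ X →
    ∫ y in (1 : ℝ)..X, V y q / y ^ 2 ≤ X ^ ε * ∫ y in X..(X ^ K), V y q / y ^ 2 := by
  obtain ⟨N, hN⟩ := EM.main
  refine ⟨N, fun ε hε => ?_⟩
  obtain ⟨K₁, X₁, hK₁, hX₁, h1⟩ := never_drops (ε / 4) (by linarith)
  obtain ⟨K₂, X₂, h2⟩ := hN (ε / 4) (by linarith)
  obtain ⟨X₃, hX₃⟩ := Filter.eventually_atTop.mp (evX_const 2 (ε / 4) (by linarith))
  refine ⟨max K₁ K₂, max X₁ (max X₂ X₃), le_trans hK₁ (le_max_left _ _),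
    le_trans hX₁ (le_max_left _ _), fun q _ X hNq hqX hX => ?_⟩
  have hXa : X₁ ≤ X := le_trans (le_max_left _ _) hX
  have hXb : X₂ ≤ X := le_trans (le_max_left _ _) (le_trans (le_max_right _ _) hX)
  have hXc : X₃ ≤ X := le_trans (le_max_right _ _) (le_trans (le_max_right _ _) hX)
  have hX1 : 1 ≤ X := hX₁.trans hXa
  have hX0 : 0 < X := by linarith
  have hconst := hX₃ X hXc
  set K := max K₁ K₂ with hK
  have hpow : ∀ k : ℕ, 1 ≤ k → X ≤ X ^ k := fun k hk => by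
    calc X = X ^ 1 := (pow_one X).symm
      _ ≤ X ^ k := pow_le_pow_right₀ hX1 hk
  have hfun : ∀ y : ℝ, y ∈ Ioi (0 : ℝ) → V y q / y ^ 2 = V y q * y ^ (-1 - 2 * (1 / 2) : ℝ) := by
    intro y hy
    have hy0 : 0 < y := hy
    rw [show (-1 - 2 * (1 / 2) : ℝ) = -(2 : ℕ) by norm_num, Real.rpow_neg hy0.le,
      Real.rpow_natCast]
    rfl
  have hint : ∀ Y : ℝ, IntegrableOn (fun y : ℝ => V y q / y ^ 2) (Ioc X Y) := fun Y =>
    integrable_V_window q X Y hX1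
  have hmono : ∀ k : ℕ, 1 ≤ k → k ≤ K →
      ∫ y in Ioc X (X ^ k), V y q / y ^ 2 ≤ ∫ y in Ioc X (X ^ K), V y q / y ^ 2 := by
    intro k hk hkK
    refine setIntegral_mono_set (hint _) ?_
      (ae_of_all _ (Ioc_subset_Ioc_right (pow_le_pow_right₀ hX1 hkK)))
    refine (ae_restrict_iff' measurableSet_Ioc).mpr (ae_of_all _ fun y hy => ?_)
    have hy0 : 0 < y := by linarith [hy.1]
    have := V_nonneg y q
    simp only [Pi.zero_apply]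
    positivity
  have hK1 : 1 ≤ K := le_trans hK₁ (le_max_left _ _)
  rw [intervalIntegral.integral_of_le hX1, intervalIntegral.integral_of_le (hpow K hK1)]
  set J := ∫ y in Ioc X (X ^ K), V y q / y ^ 2 with hJ
  have hJ1 : X ^ (-(ε / 4)) ≤ J := by
    have h3 := (h2 q X hqX hXb).1 hNq
    by_cases hk : 1 ≤ K₂
    · rw [intervalIntegral.integral_of_le (hpow K₂ hk)] at h3
      exact h3.trans (hmono K₂ hk (le_max_right _ _))
    · have hk0 : K₂ = 0 := by omega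
      rw [hk0, pow_zero, intervalIntegral.integral_symm,
        intervalIntegral.integral_of_le hX1] at h3
      have h4 : 0 ≤ ∫ y in Ioc 1 X, V y q / y ^ 2 :=
        setIntegral_nonneg measurableSet_Ioc fun y hy => by
          have hy0 : 0 < y := by linarith [hy.1]
          have := V_nonneg y q
          positivity
      have h5 : 0 < X ^ (-(ε / 4)) := by positivity
      linarith
  have h3 := h1 q X (1 / 2) hqX hXa le_rfl
  have e1 : ∫ y in Ioc 1 X, V y q / y ^ 2 = ∫ y in Ioc 1 X, V y q * y ^ (-1 - 2 * (1 / 2) : ℝ) :=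
    setIntegral_congr_fun measurableSet_Ioc fun y hy =>
      hfun y (show (0 : ℝ) < y by linarith [hy.1])
  have e2 : ∫ y in Ioc X (X ^ K₁), V y q / y ^ 2
      = ∫ y in Ioc X (X ^ K₁), V y q * y ^ (-1 - 2 * (1 / 2) : ℝ) :=
    setIntegral_congr_fun measurableSet_Ioc fun y hy =>
      hfun y (show (0 : ℝ) < y by linarith [hy.1])
  rw [← e1, ← e2] at h3
  have h6 := hmono K₁ hK₁ (le_max_left _ _)
  have hJ0 : 0 < J := lt_of_lt_of_le (by positivity) hJ1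
  have h7 : (1 : ℝ) ≤ X ^ (ε / 4) * J := by
    calc (1 : ℝ) = X ^ (ε / 4) * X ^ (-(ε / 4)) := by rw [← Real.rpow_add hX0]; simp
      _ ≤ X ^ (ε / 4) * J := by gcongr
  have hp : (1 : ℝ) ≤ X ^ (ε / 4) := Real.one_le_rpow hX1 (by linarith)
  calc ∫ y in Ioc 1 X, V y q / y ^ 2
      ≤ X ^ (ε / 4) * (1 + ∫ y in Ioc X (X ^ K₁), V y q / y ^ 2) := h3
    _ ≤ X ^ (ε / 4) * (X ^ (ε / 4) * J + X ^ (ε / 4) * J) := by
        gcongr
        nlinarith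
    _ = 2 * (X ^ (ε / 4) * X ^ (ε / 4) * J) := by ring
    _ ≤ X ^ (ε / 4) * (X ^ (ε / 4) * X ^ (ε / 4) * J) := by gcongr
    _ = (X ^ (ε / 4) * X ^ (ε / 4) * X ^ (ε / 4)) * J := by ring
    _ = X ^ (ε / 4 + ε / 4 + ε / 4) * J := by rw [← Real.rpow_add hX0, ← Real.rpow_add hX0]
    _ ≤ X ^ ε * J := by
        have : X ^ (ε / 4 + ε / 4 + ε / 4) ≤ X ^ ε :=
          Real.rpow_le_rpow_of_exponent_le hX1 (by linarith)
        gcongr

end Pool.Agent.TS
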