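import Pool.Agent.Lib.MP_9cfc0a_nt.TS.Lc

/-!
# The finite set of zeros
-/

set_option autoImplicit false

namespace Pool.Agent.TS

open Complex Metric Set MeasureTheory
open Pool.Agent.EM

lemma mu_nonneg {q : ℕ} [NeZero q] (χ : DirichletCharacter ℂ q) (ρ : ℂ) : 0 ≤ mu χ ρ := by
  unfold mu
  positivity

/-- the finite set of zeros of `FF q χ` with `σ ≤ Re ρ` (`< 1`) and `|Im ρ| ≤ T` -/
noncomputable def Zf {q : ℕ} [NeZero q] (χ : DirichletCharacter ℂ q) (σ T : ℝ) : Finset ℂ :=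
  (Zs_finite χ σ T).toFinset

lemma mem_Zf {q : ℕ} [NeZero q] (χ : DirichletCharacter ℂ q) (σ T : ℝ) (ρ : ℂ) :
    ρ ∈ Zf χ σ T ↔ MC.FF q χ ρ = 0 ∧ σ ≤ ρ.re ∧ |ρ.im| ≤ T := by
  unfold Zf
  rw [Set.Finite.mem_toFinset]
  rfl

lemma Zf_re_lt {q : ℕ} [NeZero q] (χ : DirichletCharacter ℂ q) (ρ : ℂ)
    (h : MC.FF q χ ρ = 0) : ρ.re < 1 := by
  by_contra hge
  exact ZD_FF_ne q χ ρ (not_lt.mp hge) h

end Pool.Agent.TS
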