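import Pool.Agent.Lib.MP_9cfc0a_nt.Mg.G073
import Pool.Agent.Lib.MP_9cfc0a_nt.Mg.G071

/-!
# Ad: upper bound, all characters
-/

set_option autoImplicit false

namespace Pool.Agent.TS

open Complex Metric Set MeasureTheory
open Pool.Agent.EM

/-- Ad. PROOF. Sum `char_upper` over `χ` (`y^(-2) = y^(-1-2·(1/2))`, `variance_int` with `σ = 1/2`; the
number of characters is `φ(q)`: `DirichletCharacter.card_eq_totient_of_hasEnoughRootsOfUnity`,
see the end of ZDFinal.lean); `1 ≤ mu` (`one_le_mu`) to insert the multiplicities. -/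
lemma all_upper (ε : ℝ) (hε : 0 < ε) : ∃ X₁ : ℝ, 1 ≤ X₁ ∧
    ∀ (q : ℕ) [NeZero q] (X x : ℝ), (q : ℝ) ≤ X → X₁ ≤ X → 1 ≤ x → x ≤ X →
    (Nat.totient q : ℝ) * ∫ y in Ioc x (2 * x), V y q * y ^ (-2 : ℝ)
      ≤ X ^ ε * ((Nat.totient q : ℝ) + ∑ χ : DirichletCharacter ℂ q,
          ∑ ρ ∈ Zf χ (1 / 2) X, mu χ ρ * x ^ (2 * ρ.re - 1) / ‖ρ‖ ^ 2) := by
  obtain ⟨X₁, h⟩ := char_upper ε hε
  refine ⟨max X₁ 1, le_max_right _ _, ?_⟩
  intro q _ X x hq hX hx hxX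
  have hX1 : 1 ≤ X := (le_max_right _ _).trans hX
  have h1 := variance_int q x (2 * x) (1 / 2) hx le_rfl
  have h2 : (-1 - 2 * (1 / 2) : ℝ) = -2 := by norm_num
  rw [h2] at h1
  have h3 : ((Nat.totient q : ℕ) : ℝ) = ∑ _χ : DirichletCharacter ℂ q, (1 : ℝ) := by
    rw [Finset.sum_const, nsmul_eq_mul, mul_one, Finset.card_univ,
      ← DirichletCharacter.card_eq_totient_of_hasEnoughRootsOfUnity ℂ q, Nat.card_eq_fintype_card]
  rw [← h1]
  calc ∑ χ : DirichletCharacter ℂ q, ∫ y in Ioc x (2 * x), ‖gC χ y‖ ^ 2 * y ^ (-2 : ℝ)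
      ≤ ∑ χ : DirichletCharacter ℂ q, X ^ ε * (1 + ∑ ρ ∈ Zf χ (1 / 2) X,
          mu χ ρ * x ^ (2 * ρ.re - 1) / ‖ρ‖ ^ 2) := by
        refine Finset.sum_le_sum fun χ _ => ?_
        refine (h q X x hq ((le_max_left _ _).trans hX) hx hxX χ).trans ?_
        refine mul_le_mul_of_nonneg_left ?_ (Real.rpow_nonneg (zero_le_one.trans hX1) _)
        refine add_le_add le_rfl (Finset.sum_le_sum fun ρ hρ => ?_)
        rw [mem_Zf] at hρ
        have h4 := one_le_mu χ ρ hρ.1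
        have h5 : 0 ≤ x ^ (2 * ρ.re - 1) := Real.rpow_nonneg (zero_le_one.trans hx) _
        have h6 : x ^ (2 * ρ.re - 1) ≤ mu χ ρ * x ^ (2 * ρ.re - 1) := by nlinarith
        exact div_le_div_of_nonneg_right h6 (by positivity)
    _ = X ^ ε * ((Nat.totient q : ℝ) + ∑ χ : DirichletCharacter ℂ q,
          ∑ ρ ∈ Zf χ (1 / 2) X, mu χ ρ * x ^ (2 * ρ.re - 1) / ‖ρ‖ ^ 2) := by
        rw [h3, ← Finset.mul_sum, Finset.sum_add_distrib]

end Pool.Agent.TS
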