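import Pool.Agent.Lib.MP_9cfc0a_nt.TS.Defs2

/-!
# Aj: splitting of the zeros
-/

set_option autoImplicit false

namespace Pool.Agent.TS

open Complex Metric Set MeasureTheory
open Pool.Agent.EM

/-- Aj. PROOF. For `ρ ∈ Zf χ (1/2) X`: if `Re ρ < σ`, `x^(2(Re ρ - σ)) ≤ 1`; if `Re ρ ≥ σ`,
`x^(2(Re ρ - σ)) ≤ X^(2(Re ρ - σ))` and `ρ ∈ Zf χ σ X`. All terms are nonnegative (`mu_nonneg`). -/
lemma split_zeros {q : ℕ} [NeZero q] (χ : DirichletCharacter ℂ q) (X x σ : ℝ) (hx : 1 ≤ x)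
    (hxX : x ≤ X) (hσ : 1 / 2 ≤ σ) :
    ∑ ρ ∈ Zf χ (1 / 2) X, mu χ ρ * x ^ (2 * (ρ.re - σ)) / ‖ρ‖ ^ 2
      ≤ ∑ ρ ∈ Zf χ (1 / 2) X, mu χ ρ / ‖ρ‖ ^ 2
        + ∑ ρ ∈ Zf χ σ X, mu χ ρ * X ^ (2 * (ρ.re - σ)) / ‖ρ‖ ^ 2 := by
  classical
  have hf : Zf χ σ X = (Zf χ (1 / 2) X).filter (fun ρ => σ ≤ ρ.re) := by
    ext ρ
    rw [Finset.mem_filter, mem_Zf, mem_Zf]
    constructor
    · rintro ⟨h1, h2, h3⟩
      exact ⟨⟨h1, hσ.trans h2, h3⟩, h2⟩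
    · rintro ⟨⟨h1, _, h3⟩, h2⟩
      exact ⟨h1, h2, h3⟩
  rw [hf, Finset.sum_filter, ← Finset.sum_add_distrib]
  refine Finset.sum_le_sum fun ρ _ => ?_
  have hm := mu_nonneg χ ρ
  have hn : 0 ≤ ‖ρ‖ ^ 2 := by positivity
  have hx0 : 0 ≤ x := by linarith
  split_ifs with h
  · have h1 : x ^ (2 * (ρ.re - σ)) ≤ X ^ (2 * (ρ.re - σ)) :=
      Real.rpow_le_rpow hx0 hxX (by linarith)
    have h2 : mu χ ρ * x ^ (2 * (ρ.re - σ)) / ‖ρ‖ ^ 2 ≤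
        mu χ ρ * X ^ (2 * (ρ.re - σ)) / ‖ρ‖ ^ 2 :=
      div_le_div_of_nonneg_right (mul_le_mul_of_nonneg_left h1 hm) hn
    have h3 : 0 ≤ mu χ ρ / ‖ρ‖ ^ 2 := div_nonneg hm hn
    linarith
  · have h1 : x ^ (2 * (ρ.re - σ)) ≤ 1 :=
      Real.rpow_le_one_of_one_le_of_nonpos hx (by linarith [not_le.mp h])
    rw [add_zero]
    exact div_le_div_of_nonneg_right (mul_le_of_le_one_right hm h1) hn

end Pool.Agent.TS
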