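import Pool.Agent.Lib.MP_9cfc0a_nt.TS.Defs2
import Pool.Agent.Lib.MP_9cfc0a_nt.Mg.G069

/-!
# Lp: the sum over all zeros is at most C log X
-/

set_option autoImplicit false

namespace Pool.Agent.TS

open Complex Metric Set MeasureTheory
open Pool.Agent.EM

/-- Lp. PROOF. `weight_sum A` with `y = 0`: `‖ρ‖² ≥ 1/4 + (Im ρ)² ≥ (9 + (Im ρ)²)/36`, so
`1/‖ρ‖² ≤ 36/(9 + (Im ρ)²) = 4 · 9/(9 + (Im ρ - 0)²)`. -/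
lemma zeros_trivial (A : ℕ) : ∃ C X₁ : ℝ, 1 ≤ C ∧ ∀ (q : ℕ) [NeZero q] (X : ℝ), (q : ℝ) ≤ X →
    X₁ ≤ X → ∀ χ : DirichletCharacter ℂ q,
    ∑ ρ ∈ Zf χ (1 / 2) (X ^ A), mu χ ρ / ‖ρ‖ ^ 2 ≤ C * Real.log X := by
  obtain ⟨C, X₁, hC, h⟩ := weight_sum A
  refine ⟨4 * C, X₁, by linarith, ?_⟩
  intro q _ X hq hX χ
  have h1 := h q X hq hX χ (Zf χ (1 / 2) (X ^ A)) (fun ρ hρ => (mem_Zf χ _ _ ρ).1 hρ) 0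
  have h2 : ∑ ρ ∈ Zf χ (1 / 2) (X ^ A), mu χ ρ / ‖ρ‖ ^ 2
      ≤ ∑ ρ ∈ Zf χ (1 / 2) (X ^ A), 4 * (mu χ ρ * (9 / (9 + (ρ.im - 0) ^ 2))) := by
    refine Finset.sum_le_sum fun ρ hρ => ?_
    obtain ⟨-, hre, -⟩ := (mem_Zf χ _ _ ρ).1 hρ
    have hn : ‖ρ‖ ^ 2 = ρ.re * ρ.re + ρ.im * ρ.im := by
      rw [Complex.sq_norm, Complex.normSq_apply]
    have h3 : (9 + ρ.im ^ 2) / 36 ≤ ‖ρ‖ ^ 2 := by
      rw [hn]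
      nlinarith [sq_nonneg ρ.im]
    have h4 : (0 : ℝ) < (9 + ρ.im ^ 2) / 36 := by positivity
    have h5 : mu χ ρ / ‖ρ‖ ^ 2 ≤ mu χ ρ / ((9 + ρ.im ^ 2) / 36) :=
      div_le_div_of_nonneg_left (mu_nonneg χ ρ) h4 h3
    refine h5.trans (le_of_eq ?_)
    rw [sub_zero]
    field_simp
    ring
  rw [← Finset.mul_sum] at h2
  linarith

end Pool.Agent.TS
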