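import Pool.Agent.Lib.MP_9cfc0a_nt.Mg.G071
import Pool.Agent.Lib.MP_9cfc0a_nt.TS.Ad
import Pool.Agent.Lib.MP_9cfc0a_nt.TS.Aj
import Pool.Agent.Lib.MP_9cfc0a_nt.TS.Lp

/-!
# Ae: monotonicity, dyadic
-/

set_option autoImplicit false

namespace Pool.Agent.TS

open Complex Metric Set MeasureTheory
open Pool.Agent.EM

private lemma Ae_int {q : ℕ} (χ : DirichletCharacter ℂ q) {X Y σ η : ℝ} (hX : 1 ≤ X)
    (hσ : 1 / 2 ≤ σ) (hη : 0 ≤ η) :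
    ∫ x in Ioc X Y, ‖gC χ x‖ ^ 2 * x ^ (-1 - 2 * (σ + η))
      ≤ X ^ (-(2 * η)) * ∫ x in Ioc X Y, ‖gC χ x‖ ^ 2 * x ^ (-1 - 2 * σ) := by
  rw [← integral_const_mul]
  refine setIntegral_mono_on (integrable_gC_sq_window χ (σ + η) X Y (by linarith) hX)
    ((integrable_gC_sq_window χ σ X Y hσ hX).const_mul _) measurableSet_Ioc fun x hx => ?_
  have hX0 : 0 < X := by linarith
  have hx0 : 0 < x := hX0.trans hx.1
  have h1 : x ^ (-1 - 2 * (σ + η)) = x ^ (-(2 * η)) * x ^ (-1 - 2 * σ) := by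
    rw [← Real.rpow_add hx0]
    congr 1
    ring
  have h2 : x ^ (-(2 * η)) ≤ X ^ (-(2 * η)) :=
    Real.rpow_le_rpow_of_nonpos hX0 hx.1.le (by linarith)
  have h3 : 0 ≤ ‖gC χ x‖ ^ 2 * x ^ (-1 - 2 * σ) := by positivity
  rw [h1]
  calc ‖gC χ x‖ ^ 2 * (x ^ (-(2 * η)) * x ^ (-1 - 2 * σ))
      = x ^ (-(2 * η)) * (‖gC χ x‖ ^ 2 * x ^ (-1 - 2 * σ)) := by ring
    _ ≤ X ^ (-(2 * η)) * (‖gC χ x‖ ^ 2 * x ^ (-1 - 2 * σ)) :=
        mul_le_mul_of_nonneg_right h2 h3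

private lemma Ae_log {C δ : ℝ} (hC : 1 ≤ C) (hδ : 0 < δ) : ∃ X₁ : ℝ, 1 ≤ X₁ ∧ ∀ X : ℝ,
    X₁ ≤ X → 1 + C * Real.log X ≤ X ^ δ := by
  refine ⟨max 1 ((1 + C * (2 / δ)) ^ (2 / δ)), le_max_left _ _, fun X hX => ?_⟩
  have hX1 : 1 ≤ X := (le_max_left _ _).trans hX
  have hXp : 0 < X := by linarith
  have hd : 0 < δ / 2 := half_pos hδ
  have h1 : 1 + C * (2 / δ) ≤ X ^ (δ / 2) := by
    have h2 : (0 : ℝ) ≤ 1 + C * (2 / δ) := by positivity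
    have h3 := Real.rpow_le_rpow (Real.rpow_nonneg h2 _) ((le_max_right _ _).trans hX) hd.le
    rwa [← Real.rpow_mul h2, show 2 / δ * (δ / 2) = 1 by field_simp, Real.rpow_one] at h3
  have h4 : Real.log X ≤ X ^ (δ / 2) / (δ / 2) := Real.log_le_rpow_div hXp.le hd
  have h5 : 1 ≤ X ^ (δ / 2) := Real.one_le_rpow hX1 hd.le
  have h6 : X ^ (δ / 2) / (δ / 2) = (2 / δ) * X ^ (δ / 2) := by
    field_simp
  calc 1 + C * Real.log X ≤ X ^ (δ / 2) + C * ((2 / δ) * X ^ (δ / 2)) := by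
        rw [h6] at h4
        exact add_le_add h5 (mul_le_mul_of_nonneg_left h4 (by linarith))
    _ = (1 + C * (2 / δ)) * X ^ (δ / 2) := by ring
    _ ≤ X ^ (δ / 2) * X ^ (δ / 2) := mul_le_mul_of_nonneg_right h1 (by linarith)
    _ = X ^ δ := by
        rw [← Real.rpow_add hXp]
        congr 1
        ring

/-- Ae. PROOF. Let `ε' = ε/4`, `φ = φ(q) ≥ 1`. On `Ioc x (2x)`: `y^(-1-2σ) = y^(-2) y^(1-2σ) ≤
y^(-2) x^(1-2σ)` (`σ ≥ 1/2`), so by `all_upper ε'` and `x^(1-2σ) x^(2 Re ρ - 1) = x^(2(Re ρ - σ))`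
`φ ∫ V y^(-1-2σ) ≤ X^(ε') (φ + ∑_χ ∑_ρ mu x^(2(Re ρ-σ))/‖ρ‖²)` (`x^(1-2σ) ≤ 1`). `split_zeros`; the first sum
is `≤ C log X` for each `χ` by `zeros_trivial 1` (`pow_one`; the number of characters is `φ`:
`DirichletCharacter.card_eq_totient_of_hasEnoughRootsOfUnity`, see the end of ZDFinal.lean), the second
is estimated by `all_lower 1 ε'`. Divide by `φ`:
`∫ V y^(-1-2σ) ≤ X^(ε') (1 + C log X + X^(ε') ∫_W V y^(-1-2σ)) ≤ X^ε (1 + ∫_W)` for `X` large. -/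
lemma mono_dyadic (ε : ℝ) (hε : 0 < ε) : ∃ (K : ℕ) (X₀ : ℝ), 1 ≤ K ∧ 1 ≤ X₀ ∧
    ∀ (q : ℕ) [NeZero q] (X x σ : ℝ), (q : ℝ) ≤ X → X₀ ≤ X → 1 / 2 ≤ σ → 1 ≤ x → x ≤ X →
    ∫ y in Ioc x (2 * x), V y q * y ^ (-1 - 2 * σ)
      ≤ X ^ ε * (1 + ∫ y in Ioc X (X ^ K), V y q * y ^ (-1 - 2 * σ)) := by
  obtain ⟨δ, hδ⟩ : ∃ δ : ℝ, δ = ε / 4 := ⟨_, rfl⟩
  have hδ0 : 0 < δ := by rw [hδ]; positivity
  obtain ⟨K, X₀, hK, hX₀, hlow⟩ := all_lower 1 δ hδ0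
  obtain ⟨X₁, hX₁, hup⟩ := all_upper δ hδ0
  obtain ⟨C, X₂, hC, htriv⟩ := zeros_trivial 1
  obtain ⟨X₃, hX₃, hlog⟩ := Ae_log hC hδ0
  refine ⟨K, max (max X₀ X₁) (max X₂ X₃), hK, (hX₀.trans (le_max_left _ _)).trans
    (le_max_left _ _), ?_⟩
  intro q _ X x σ hq hX hσ hx hxX
  have hXX₀ : X₀ ≤ X := ((le_max_left _ _).trans (le_max_left _ _)).trans hX
  have hXX₁ : X₁ ≤ X := ((le_max_right _ _).trans (le_max_left _ _)).trans hX
  have hXX₂ : X₂ ≤ X := ((le_max_left _ _).trans (le_max_right _ _)).trans hX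
  have hXX₃ : X₃ ≤ X := ((le_max_right _ _).trans (le_max_right _ _)).trans hX
  have hX1 : 1 ≤ X := hX₀.trans hXX₀
  have hXp : 0 < X := by linarith
  have hxp : 0 < x := by linarith
  have hXδ : 0 ≤ X ^ δ := Real.rpow_nonneg hXp.le _
  have hφ : (0 : ℝ) < (Nat.totient q : ℝ) := by
    exact_mod_cast Nat.totient_pos.2 (Nat.pos_of_ne_zero (NeZero.ne q))
  have hcard : ((Nat.totient q : ℕ) : ℝ) = ∑ _χ : DirichletCharacter ℂ q, (1 : ℝ) := by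
    rw [Finset.sum_const, nsmul_eq_mul, mul_one, Finset.card_univ,
      ← DirichletCharacter.card_eq_totient_of_hasEnoughRootsOfUnity ℂ q, Nat.card_eq_fintype_card]
  obtain ⟨I, hI⟩ : ∃ I : ℝ, I = ∫ y in Ioc x (2 * x), V y q * y ^ (-1 - 2 * σ) := ⟨_, rfl⟩
  obtain ⟨W, hW⟩ : ∃ W : ℝ, W = ∫ y in Ioc X (X ^ K), V y q * y ^ (-1 - 2 * σ) := ⟨_, rfl⟩
  rw [← hI, ← hW]
  have hW0 : 0 ≤ W := by
    have h1 := variance_int q X (X ^ K) σ hX1 hσ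
    rw [← hW] at h1
    have h2 : 0 ≤ (Nat.totient q : ℝ) * W := by
      rw [← h1]
      refine Finset.sum_nonneg fun χ _ => setIntegral_nonneg measurableSet_Ioc fun y hy => ?_
      have hy0 : 0 < y := hXp.trans hy.1
      positivity
    by_contra hneg
    have h3 : (Nat.totient q : ℝ) * W < 0 := mul_neg_of_pos_of_neg hφ (not_le.1 hneg)
    linarith
  -- the window `Ioc x (2x)`
  have hstep1 : (Nat.totient q : ℝ) * I ≤ x ^ (1 - 2 * σ) *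
      ((Nat.totient q : ℝ) * ∫ y in Ioc x (2 * x), V y q * y ^ (-2 : ℝ)) := by
    have h1 := variance_int q x (2 * x) σ hx hσ
    have h2 := variance_int q x (2 * x) (1 / 2) hx le_rfl
    rw [← hI] at h1
    have h3 : (-1 - 2 * (1 / 2) : ℝ) = -2 := by norm_num
    rw [h3] at h2
    rw [← h1, ← h2, Finset.mul_sum]
    refine Finset.sum_le_sum fun χ _ => ?_
    have h4 := Ae_int χ (X := x) (Y := 2 * x) (σ := 1 / 2) (η := σ - 1 / 2) hx le_rfl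
      (by linarith)
    have h5 : (1 / 2 : ℝ) + (σ - 1 / 2) = σ := by ring
    have h6 : -(2 * (σ - 1 / 2)) = 1 - 2 * σ := by ring
    rw [h5, h6, h3] at h4
    exact h4
  have hstep2 := hup q X x hq hXX₁ hx hxX
  have hx1 : x ^ (1 - 2 * σ) ≤ 1 := Real.rpow_le_one_of_one_le_of_nonpos hx (by linarith)
  have hx0 : 0 ≤ x ^ (1 - 2 * σ) := Real.rpow_nonneg hxp.le _
  -- the zeros of one character
  have hchar : ∀ χ : DirichletCharacter ℂ q,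
      x ^ (1 - 2 * σ) * ∑ ρ ∈ Zf χ (1 / 2) X, mu χ ρ * x ^ (2 * ρ.re - 1) / ‖ρ‖ ^ 2 ≤
        C * Real.log X + ∑ ρ ∈ Zf χ σ X, mu χ ρ * X ^ (2 * (ρ.re - σ)) / ‖ρ‖ ^ 2 := by
    intro χ
    have h1 := split_zeros χ X x σ hx hxX hσ
    have h2 := htriv q X hq hXX₂ χ
    rw [pow_one] at h2
    refine le_trans (le_of_eq ?_) (h1.trans (add_le_add h2 le_rfl))
    rw [Finset.mul_sum]
    refine Finset.sum_congr rfl fun ρ _ => ?_
    have h3 : x ^ (2 * (ρ.re - σ)) = x ^ (1 - 2 * σ) * x ^ (2 * ρ.re - 1) := by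
      rw [← Real.rpow_add hxp]
      congr 1
      ring
    rw [h3]
    ring
  have hlow' := hlow q X σ hq hXX₀ hσ
  rw [← hW, pow_one] at hlow'
  have hsum : x ^ (1 - 2 * σ) * ((Nat.totient q : ℝ) + ∑ χ : DirichletCharacter ℂ q,
      ∑ ρ ∈ Zf χ (1 / 2) X, mu χ ρ * x ^ (2 * ρ.re - 1) / ‖ρ‖ ^ 2) ≤
      (Nat.totient q : ℝ) * (1 + C * Real.log X) + X ^ δ * ((Nat.totient q : ℝ) * W) := by
    rw [mul_add, Finset.mul_sum]
    have h1 : x ^ (1 - 2 * σ) * (Nat.totient q : ℝ) ≤ (Nat.totient q : ℝ) := by nlinarith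
    have h2 := Finset.sum_le_sum fun (χ : DirichletCharacter ℂ q) (_ : χ ∈ Finset.univ) => hchar χ
    rw [Finset.sum_add_distrib] at h2
    have h3 : ∑ _χ : DirichletCharacter ℂ q, C * Real.log X =
        (Nat.totient q : ℝ) * (C * Real.log X) := by
      rw [hcard, Finset.sum_mul]
      refine Finset.sum_congr rfl fun _ _ => ?_
      rw [one_mul]
    rw [h3] at h2
    linarith
  have hmain : (Nat.totient q : ℝ) * I ≤ (Nat.totient q : ℝ) *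
      (X ^ δ * ((1 + C * Real.log X) + X ^ δ * W)) := by
    calc (Nat.totient q : ℝ) * I ≤ x ^ (1 - 2 * σ) *
          ((Nat.totient q : ℝ) * ∫ y in Ioc x (2 * x), V y q * y ^ (-2 : ℝ)) := hstep1
      _ ≤ x ^ (1 - 2 * σ) * (X ^ δ * ((Nat.totient q : ℝ) + ∑ χ : DirichletCharacter ℂ q,
          ∑ ρ ∈ Zf χ (1 / 2) X, mu χ ρ * x ^ (2 * ρ.re - 1) / ‖ρ‖ ^ 2)) :=
          mul_le_mul_of_nonneg_left hstep2 hx0
      _ = X ^ δ * (x ^ (1 - 2 * σ) * ((Nat.totient q : ℝ) + ∑ χ : DirichletCharacter ℂ q,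
          ∑ ρ ∈ Zf χ (1 / 2) X, mu χ ρ * x ^ (2 * ρ.re - 1) / ‖ρ‖ ^ 2)) := by ring
      _ ≤ X ^ δ * ((Nat.totient q : ℝ) * (1 + C * Real.log X) +
          X ^ δ * ((Nat.totient q : ℝ) * W)) := mul_le_mul_of_nonneg_left hsum hXδ
      _ = (Nat.totient q : ℝ) * (X ^ δ * ((1 + C * Real.log X) + X ^ δ * W)) := by ring
  have hI' := le_of_mul_le_mul_left hmain hφ
  calc I ≤ X ^ δ * ((1 + C * Real.log X) + X ^ δ * W) := hI'
    _ ≤ X ^ δ * (X ^ δ + X ^ δ * W) :=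
        mul_le_mul_of_nonneg_left (add_le_add (hlog X hXX₃) le_rfl) hXδ
    _ = X ^ (2 * δ) * (1 + W) := by
        rw [two_mul, Real.rpow_add hXp]
        ring
    _ ≤ X ^ ε * (1 + W) := by
        refine mul_le_mul_of_nonneg_right ?_ (by linarith)
        refine Real.rpow_le_rpow_of_exponent_le hX1 ?_
        rw [hδ]
        linarith

end Pool.Agent.TS
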