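import Pool.Agent.Lib.MP_9cfc0a_nt.TS.Ae

/-!
# Af: monotonicity
-/

set_option autoImplicit false

namespace Pool.Agent.TS

open Complex Metric Set MeasureTheory
open Pool.Agent.EM

private lemma Af_nonneg (q : ℕ) (σ : ℝ) {y : ℝ} (hy : 0 ≤ y) : 0 ≤ V y q * y ^ (-1 - 2 * σ) :=
  mul_nonneg (V_nonneg y q) (Real.rpow_nonneg hy _)

private lemma Af_sum (q : ℕ) (σ : ℝ) (hσ : 1 / 2 ≤ σ) (N : ℕ) :
    ∫ y in Ioc (1 : ℝ) (2 ^ N), V y q * y ^ (-1 - 2 * σ)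
      = ∑ i ∈ Finset.range N, ∫ y in Ioc ((2 : ℝ) ^ i) (2 * 2 ^ i), V y q * y ^ (-1 - 2 * σ) := by
  induction N with
  | zero => simp
  | succ N ih =>
    rw [Finset.sum_range_succ, ← ih]
    have h1 : (1 : ℝ) ≤ 2 ^ N := one_le_pow₀ (by norm_num)
    have h2 : (2 : ℝ) ^ N ≤ 2 * 2 ^ N := by linarith
    have h3 : Ioc (1 : ℝ) (2 ^ (N + 1)) = Ioc (1 : ℝ) (2 ^ N) ∪ Ioc ((2 : ℝ) ^ N) (2 * 2 ^ N) := by
      rw [Set.Ioc_union_Ioc_eq_Ioc h1 h2, pow_succ, mul_comm]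
    rw [h3]
    refine setIntegral_union ?_ measurableSet_Ioc (integrable_V_window' q σ 1 _ hσ le_rfl)
      (integrable_V_window' q σ _ _ hσ h1)
    exact Set.Ioc_disjoint_Ioc_of_le le_rfl

/-- Af. PROOF. `Ioc 1 X ⊆ ⋃_{i < N} Ioc (2^i) (2·2^i)` with `N = ⌊log X / log 2⌋₊ + 1` and `2^i ≤ X` for
`i < N`; the integrand is nonnegative (`V_nonneg`). `mono_dyadic (ε/2)`,
`N ≤ 2 log X + 1 ≤ X^(ε/2)` for `X` large. (Induction on `N`: `∫ Ioc 1 (2^N) = ∑ ∫ Ioc (2^i) (2^(i+1))`,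
`intervalIntegral.sum_integral_adjacent_intervals`, integrability from `integrable_V_window'`.) -/
lemma mono_full (ε : ℝ) (hε : 0 < ε) : ∃ (K : ℕ) (X₀ : ℝ), 1 ≤ K ∧ 1 ≤ X₀ ∧
    ∀ (q : ℕ) [NeZero q] (X σ : ℝ), (q : ℝ) ≤ X → X₀ ≤ X → 1 / 2 ≤ σ →
    ∫ y in Ioc 1 X, V y q * y ^ (-1 - 2 * σ)
      ≤ X ^ ε * (1 + ∫ y in Ioc X (X ^ K), V y q * y ^ (-1 - 2 * σ)) := by
  obtain ⟨K, X₁, hK, hX₁, hmain⟩ := mono_dyadic (ε / 2) (half_pos hε)
  have hc : (1 : ℝ) ≤ 8 / ε + 1 := by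
    have : 0 < 8 / ε := by positivity
    linarith
  refine ⟨K, max X₁ ((8 / ε + 1) ^ (4 / ε)), hK, le_trans hX₁ (le_max_left _ _), ?_⟩
  intro q _ X σ hqX hX hσ
  have hX1 : X₁ ≤ X := le_trans (le_max_left _ _) hX
  have hX2 : (8 / ε + 1) ^ (4 / ε) ≤ X := le_trans (le_max_right _ _) hX
  have hX3 : 1 ≤ X := le_trans hX₁ hX1
  have hX0 : 0 < X := by linarith
  set N : ℕ := ⌊Real.logb 2 X⌋₊ + 1 with hN
  have hlogb : 0 ≤ Real.logb 2 X := Real.logb_nonneg (by norm_num) hX3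
  have hXN : X ≤ (2 : ℝ) ^ N := by
    have h1 : Real.logb 2 X < (N : ℝ) := by
      rw [hN]
      push_cast
      exact Nat.lt_floor_add_one _
    have h2 := (Real.logb_lt_iff_lt_rpow (by norm_num : (1 : ℝ) < 2) hX0).1 h1
    rw [Real.rpow_natCast] at h2
    exact h2.le
  have hiX : ∀ i ∈ Finset.range N, (2 : ℝ) ^ i ≤ X := by
    intro i hi
    have hi' : i ≤ ⌊Real.logb 2 X⌋₊ := by
      have := Finset.mem_range.1 hi
      omega
    have h1 : (i : ℝ) ≤ Real.logb 2 X :=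
      le_trans (Nat.cast_le.2 hi') (Nat.floor_le hlogb)
    have h2 := (Real.le_logb_iff_rpow_le (by norm_num : (1 : ℝ) < 2) hX0).1 h1
    rwa [Real.rpow_natCast] at h2
  set W : ℝ := ∫ y in Ioc X (X ^ K), V y q * y ^ (-1 - 2 * σ) with hW
  have hW0 : 0 ≤ W := setIntegral_nonneg measurableSet_Ioc fun y hy =>
    Af_nonneg q σ (le_of_lt (lt_trans hX0 hy.1))
  have h1 : ∫ y in Ioc 1 X, V y q * y ^ (-1 - 2 * σ)
      ≤ ∫ y in Ioc (1 : ℝ) (2 ^ N), V y q * y ^ (-1 - 2 * σ) := by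
    refine setIntegral_mono_set (integrable_V_window' q σ 1 _ hσ le_rfl) ?_ ?_
    · refine (ae_restrict_iff' measurableSet_Ioc).2 (Filter.Eventually.of_forall fun y hy => ?_)
      exact Af_nonneg q σ (le_trans zero_le_one hy.1.le)
    · exact (Set.Ioc_subset_Ioc_right hXN).eventuallyLE
  have h2 : ∑ i ∈ Finset.range N, ∫ y in Ioc ((2 : ℝ) ^ i) (2 * 2 ^ i), V y q * y ^ (-1 - 2 * σ)
      ≤ ∑ _i ∈ Finset.range N, X ^ (ε / 2) * (1 + W) := by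
    refine Finset.sum_le_sum fun i hi => ?_
    exact hmain q X (2 ^ i) σ hqX hX1 hσ (one_le_pow₀ (by norm_num)) (hiX i hi)
  rw [Finset.sum_const, Finset.card_range, nsmul_eq_mul] at h2
  have hNle : (N : ℝ) ≤ X ^ (ε / 2) := by
    have h3 : (N : ℝ) ≤ Real.logb 2 X + 1 := by
      rw [hN]
      push_cast
      linarith [Nat.floor_le hlogb]
    have h4 : Real.logb 2 X ≤ 2 * Real.log X := by
      have hl2 : (1 / 2 : ℝ) ≤ Real.log 2 := by linarith [Real.log_two_gt_d9]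
      have hlx : 0 ≤ Real.log X := Real.log_nonneg hX3
      rw [Real.logb, div_le_iff₀ (by linarith)]
      nlinarith
    have h5 : Real.log X ≤ X ^ (ε / 4) / (ε / 4) :=
      Real.log_le_rpow_div hX0.le (by positivity)
    have h6 : (8 / ε + 1) ≤ X ^ (ε / 4) := by
      have h7 : ((8 / ε + 1) ^ (4 / ε)) ^ (ε / 4) ≤ X ^ (ε / 4) :=
        Real.rpow_le_rpow (Real.rpow_nonneg (by linarith) _) hX2 (by positivity)
      rw [← Real.rpow_mul (by linarith)] at h7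
      have h8 : 4 / ε * (ε / 4) = 1 := by field_simp
      rwa [h8, Real.rpow_one] at h7
    have h7 : (1 : ℝ) ≤ X ^ (ε / 4) := le_trans hc h6
    have h8 : X ^ (ε / 2) = X ^ (ε / 4) * X ^ (ε / 4) := by
      rw [← Real.rpow_add hX0]
      congr 1
      ring
    have h9 : 2 * (X ^ (ε / 4) / (ε / 4)) = 8 / ε * X ^ (ε / 4) := by
      field_simp
      norm_num
    rw [h8]
    calc (N : ℝ) ≤ 8 / ε * X ^ (ε / 4) + 1 := by linarith
      _ ≤ (8 / ε + 1) * X ^ (ε / 4) := by linarith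
      _ ≤ X ^ (ε / 4) * X ^ (ε / 4) := by
        exact mul_le_mul_of_nonneg_right h6 (by linarith)
  calc ∫ y in Ioc 1 X, V y q * y ^ (-1 - 2 * σ)
      ≤ (N : ℝ) * (X ^ (ε / 2) * (1 + W)) := by
        refine le_trans h1 ?_
        rw [Af_sum q σ hσ N]
        exact h2
    _ ≤ X ^ (ε / 2) * (X ^ (ε / 2) * (1 + W)) := by
        refine mul_le_mul_of_nonneg_right hNle ?_
        have : 0 ≤ X ^ (ε / 2) := Real.rpow_nonneg hX0.le _
        positivity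
    _ = X ^ ε * (1 + W) := by
        rw [← mul_assoc, ← Real.rpow_add hX0]
        congr 2
        ring

end Pool.Agent.TS
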