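import Pool.Agent.Lib.MP_9cfc0a_nt.TS.Ae

/-!
# Ah: consequences of the bound of Montgomery in one window
-/

set_option autoImplicit false

namespace Pool.Agent.TS

open Complex Metric Set MeasureTheory
open Pool.Agent.EM

/-- Ah1. PROOF. For `x ∈ [X, X^K]`: `V x q ≤ φ(q) (C x^(1/2+ε)/q^(1/2))² ≤ C² x^(1+2ε)` (see the end of
ZDFinal.lean, `montgomery_window`). So for `σ₁ ≥ 1/2 + 2 ε`:
`∫_{Ioc X (X^K)} V x^(-1-2σ₁) ≤ C² ∫_X^∞ x^(2ε-2σ₁) dx = C² X^(1+2ε-2σ₁)/(2σ₁-1-2ε) ≤ C² X^(1+2ε-2σ₁)/(2ε)`. -/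
lemma window_bound (C ε : ℝ) (hε : 0 < ε) (q K : ℕ) [NeZero q] (X σ : ℝ) (hX : 1 ≤ X)
    (hσ : 1 / 2 + 2 * ε ≤ σ)
    (h : ∀ x : ℝ, X ≤ x → x ≤ X ^ K → ∀ a : ℕ, 1 ≤ a → a ≤ q → Nat.Coprime a q →
      |psi x q a - x / (Nat.totient q : ℝ)| ≤ C * x ^ (1 / 2 + ε) / (q : ℝ) ^ (1 / 2 : ℝ)) :
    ∫ x in Ioc X (X ^ K), V x q * x ^ (-1 - 2 * σ) ≤ C ^ 2 / (2 * ε) * X ^ (1 + 2 * ε - 2 * σ) := by
  have hX0 : (0 : ℝ) < X := by linarith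
  have hq1 : (1 : ℝ) ≤ (q : ℝ) := by exact_mod_cast Nat.pos_of_ne_zero (NeZero.ne q)
  have hq0 : (0 : ℝ) < q := by linarith
  have hσ2 : 1 / 2 ≤ σ := by linarith
  set Y : ℝ := X ^ K
  have hV : ∀ x ∈ Ioc X Y, V x q * x ^ (-1 - 2 * σ) ≤ C ^ 2 * x ^ (2 * ε - 2 * σ) := by
    intro x hx
    have hx0 : 0 < x := by linarith [hx.1]
    have h3 : V x q ≤ ∑ a ∈ (Finset.Icc 1 q).filter (fun a => Nat.Coprime a q),
        (C ^ 2 * x ^ (1 + 2 * ε) / q) := by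
      refine Finset.sum_le_sum fun a ha => ?_
      rw [Finset.mem_filter, Finset.mem_Icc] at ha
      have h4 := h x hx.1.le hx.2 a ha.1.1 ha.1.2 ha.2
      have h5 : (psi x q a - x / (Nat.totient q : ℝ)) ^ 2
          ≤ (C * x ^ (1 / 2 + ε) / (q : ℝ) ^ (1 / 2 : ℝ)) ^ 2 := by
        rw [← sq_abs]
        gcongr
      refine h5.trans (le_of_eq ?_)
      have e1 : ((q : ℝ) ^ (1 / 2 : ℝ)) ^ 2 = q := by
        rw [← Real.sqrt_eq_rpow, Real.sq_sqrt (by positivity)]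
      have e2 : (x ^ (1 / 2 + ε)) ^ 2 = x ^ (1 + 2 * ε) := by
        rw [← Real.rpow_natCast, ← Real.rpow_mul hx0.le]
        congr 1
        push_cast
        ring
      rw [div_pow, mul_pow, e1, e2]
    rw [Finset.sum_const, nsmul_eq_mul] at h3
    have h4 : (((Finset.Icc 1 q).filter (fun a => Nat.Coprime a q)).card : ℝ) ≤ q := by
      have h5 := Finset.card_filter_le (Finset.Icc 1 q) (fun a => Nat.Coprime a q)
      rw [Nat.card_Icc, Nat.add_sub_cancel] at h5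
      exact_mod_cast h5
    have h5 : V x q ≤ C ^ 2 * x ^ (1 + 2 * ε) := by
      calc V x q ≤ _ := h3
        _ ≤ q * (C ^ 2 * x ^ (1 + 2 * ε) / q) := by gcongr
        _ = C ^ 2 * x ^ (1 + 2 * ε) := by field_simp
    calc V x q * x ^ (-1 - 2 * σ) ≤ C ^ 2 * x ^ (1 + 2 * ε) * x ^ (-1 - 2 * σ) := by gcongr
      _ = C ^ 2 * x ^ (2 * ε - 2 * σ) := by
          rw [mul_assoc, ← Real.rpow_add hx0]
          congr 2
          ring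
  have hexp : 2 * ε - 2 * σ < -1 := by linarith
  have hint : IntegrableOn (fun x : ℝ => C ^ 2 * x ^ (2 * ε - 2 * σ)) (Ioi X) :=
    (integrableOn_Ioi_rpow_of_lt hexp hX0).const_mul _
  calc ∫ x in Ioc X Y, V x q * x ^ (-1 - 2 * σ)
      ≤ ∫ x in Ioc X Y, C ^ 2 * x ^ (2 * ε - 2 * σ) :=
        setIntegral_mono_on (integrable_V_window' q σ X Y hσ2 hX)
          (hint.mono_set Ioc_subset_Ioi_self) measurableSet_Ioc hV
    _ ≤ ∫ x in Ioi X, C ^ 2 * x ^ (2 * ε - 2 * σ) := by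
        refine setIntegral_mono_set hint ?_ (ae_of_all _ Ioc_subset_Ioi_self)
        refine (ae_restrict_iff' measurableSet_Ioi).mpr (ae_of_all _ fun x hx => ?_)
        have hx0 : 0 < x := hX0.trans hx
        simp only [Pi.zero_apply]
        positivity
    _ = C ^ 2 * (X ^ (1 + 2 * ε - 2 * σ) / (2 * σ - 1 - 2 * ε)) := by
        rw [integral_const_mul, integral_Ioi_rpow_of_lt hexp hX0]
        rw [show 2 * ε - 2 * σ + 1 = 1 + 2 * ε - 2 * σ by ring]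
        rw [show (1 + 2 * ε - 2 * σ : ℝ) = -(2 * σ - 1 - 2 * ε) by ring, neg_div_neg_eq]
    _ ≤ C ^ 2 * (X ^ (1 + 2 * ε - 2 * σ) / (2 * ε)) := by
        gcongr
        linarith
    _ = C ^ 2 / (2 * ε) * X ^ (1 + 2 * ε - 2 * σ) := by ring

/-- Ah2. PROOF. `mono_dyadic ε` and `window_bound` with `σ = 1/2 + 2ε`:
`∫_{Ioc x (2x)} V y^(-2-4ε) ≤ X^ε (1 + C²/(2ε))` (`X^(-2ε) ≤ 1`), and `y^(-2) = y^(-2-4ε) y^(4ε) ≤
y^(-2-4ε) (2X)^(4ε)`: total `≤ 2^(4ε) X^(5ε) (1 + C²/(2ε)) ≤ X^(6ε)`. -/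
lemma montgomery_down (C ε : ℝ) (hε : 0 < ε) : ∃ (K : ℕ) (X₀ : ℝ), 1 ≤ K ∧ 1 ≤ X₀ ∧
    ∀ (q : ℕ) [NeZero q] (X : ℝ), (q : ℝ) ≤ X → X₀ ≤ X →
    (∀ x : ℝ, X ≤ x → x ≤ X ^ K → ∀ a : ℕ, 1 ≤ a → a ≤ q → Nat.Coprime a q →
      |psi x q a - x / (Nat.totient q : ℝ)| ≤ C * x ^ (1 / 2 + ε) / (q : ℝ) ^ (1 / 2 : ℝ)) →
    ∀ x : ℝ, 1 ≤ x → x ≤ X → ∫ y in Ioc x (2 * x), V y q * y ^ (-2 : ℝ) ≤ X ^ (6 * ε) := by
  obtain ⟨K, X₁, hK, hX₁, h⟩ := mono_dyadic ε hε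
  obtain ⟨X₂, hX₂⟩ := Filter.eventually_atTop.mp
    (evX_const ((2 : ℝ) ^ (4 * ε) * (1 + C ^ 2 / (2 * ε))) ε hε)
  refine ⟨K, max X₁ X₂, hK, le_trans hX₁ (le_max_left _ _), fun q _ X hqX hX hM x hx1 hxX => ?_⟩
  have hXX₁ : X₁ ≤ X := le_trans (le_max_left _ _) hX
  have hX1 : 1 ≤ X := hX₁.trans hXX₁
  have hX0 : 0 < X := by linarith
  have hc := hX₂ X (le_trans (le_max_right _ _) hX)
  have h1 := h q X x (1 / 2 + 2 * ε) hqX hXX₁ (by linarith) hx1 hxX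
  have h2 := window_bound C ε hε q K X (1 / 2 + 2 * ε) hX1 le_rfl hM
  have h3 : X ^ (1 + 2 * ε - 2 * (1 / 2 + 2 * ε)) ≤ 1 :=
    Real.rpow_le_one_of_one_le_of_nonpos hX1 (by linarith)
  have h4 : ∫ y in Ioc X (X ^ K), V y q * y ^ (-1 - 2 * (1 / 2 + 2 * ε)) ≤ C ^ 2 / (2 * ε) :=
    h2.trans (mul_le_of_le_one_right (by positivity) h3)
  have h5 : ∫ y in Ioc x (2 * x), V y q * y ^ (-1 - 2 * (1 / 2 + 2 * ε)) ≤
      X ^ ε * (1 + C ^ 2 / (2 * ε)) := by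
    refine h1.trans ?_
    gcongr
  have hint1 : IntegrableOn (fun y : ℝ => V y q * y ^ (-2 : ℝ)) (Ioc x (2 * x)) := by
    have := integrable_V_window' q (1 / 2) x (2 * x) le_rfl hx1
    rwa [show (-1 - 2 * (1 / 2) : ℝ) = -2 by norm_num] at this
  have hint2 := integrable_V_window' q (1 / 2 + 2 * ε) x (2 * x) (by linarith) hx1
  have h6 : ∫ y in Ioc x (2 * x), V y q * y ^ (-2 : ℝ) ≤
      ∫ y in Ioc x (2 * x), (2 * X) ^ (4 * ε) * (V y q * y ^ (-1 - 2 * (1 / 2 + 2 * ε))) := by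
    refine setIntegral_mono_on hint1 (hint2.const_mul _) measurableSet_Ioc fun y hy => ?_
    have hy0 : 0 < y := by linarith [hy.1]
    have hyX : y ≤ 2 * X := by linarith [hy.2]
    have e1 : y ^ (-2 : ℝ) = y ^ (4 * ε) * y ^ (-1 - 2 * (1 / 2 + 2 * ε)) := by
      rw [← Real.rpow_add hy0]
      congr 1
      ring
    have e2 : y ^ (4 * ε) ≤ (2 * X) ^ (4 * ε) := Real.rpow_le_rpow hy0.le hyX (by positivity)
    have hVn := V_nonneg y q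
    have e3 : 0 ≤ y ^ (-1 - 2 * (1 / 2 + 2 * ε)) := (Real.rpow_pos_of_pos hy0 _).le
    calc V y q * y ^ (-2 : ℝ) = y ^ (4 * ε) * (V y q * y ^ (-1 - 2 * (1 / 2 + 2 * ε))) := by
          rw [e1]; ring
      _ ≤ (2 * X) ^ (4 * ε) * (V y q * y ^ (-1 - 2 * (1 / 2 + 2 * ε))) :=
          mul_le_mul_of_nonneg_right e2 (mul_nonneg hVn e3)
  rw [integral_const_mul] at h6
  calc ∫ y in Ioc x (2 * x), V y q * y ^ (-2 : ℝ)
      ≤ (2 * X) ^ (4 * ε) * ∫ y in Ioc x (2 * x), V y q * y ^ (-1 - 2 * (1 / 2 + 2 * ε)) := h6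
    _ ≤ (2 * X) ^ (4 * ε) * (X ^ ε * (1 + C ^ 2 / (2 * ε))) := by
        gcongr
    _ = (2 : ℝ) ^ (4 * ε) * (1 + C ^ 2 / (2 * ε)) * (X ^ (4 * ε) * X ^ ε) := by
        rw [Real.mul_rpow (by norm_num) hX0.le]
        ring
    _ ≤ X ^ ε * (X ^ (4 * ε) * X ^ ε) := by
        gcongr
    _ = X ^ (6 * ε) := by
        rw [← Real.rpow_add hX0, ← Real.rpow_add hX0]
        congr 1
        ring

/-- the multiplicity of a zero of height at most `T` is at most `4 T²` times the weighted one -/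
private lemma Ah_mu_le {q : ℕ} [NeZero q] (χ : DirichletCharacter ℂ q) {T : ℝ} (hT : 1 ≤ T) {ρ : ℂ}
    (h0 : MC.FF q χ ρ = 0) (hre : 1 / 2 ≤ ρ.re) (him : |ρ.im| ≤ T) :
    mu χ ρ ≤ 4 * T ^ 2 * (mu χ ρ / ‖ρ‖ ^ 2) := by
  have h1 := Zf_re_lt χ ρ h0
  have h2 : ‖ρ‖ ≤ 2 * T := by
    have h3 := Complex.norm_le_abs_re_add_abs_im ρ
    rw [abs_of_nonneg (by linarith)] at h3
    linarith
  have h4 : 0 < ‖ρ‖ := by
    have h5 := Complex.abs_re_le_norm ρ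
    rw [abs_of_nonneg (by linarith)] at h5
    linarith
  have h6 : ‖ρ‖ ^ 2 ≤ 4 * T ^ 2 := by
    calc ‖ρ‖ ^ 2 ≤ (2 * T) ^ 2 := by gcongr
      _ = 4 * T ^ 2 := by ring
  have h7 := mu_nonneg χ ρ
  rw [← mul_div_assoc, le_div_iff₀ (by positivity), mul_comm (4 * T ^ 2)]
  exact mul_le_mul_of_nonneg_left h6 h7

private lemma Ah_sub {q : ℕ} [NeZero q] (χ : DirichletCharacter ℂ q) {σ σ' T T' : ℝ}
    (hσ : σ' ≤ σ) (hT : T ≤ T') : Zf χ σ T ⊆ Zf χ σ' T' := by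
  intro ρ hρ
  rw [mem_Zf] at hρ ⊢
  exact ⟨hρ.1, hσ.trans hρ.2.1, hρ.2.2.trans hT⟩

/-- Ah3. PROOF. If `σ ≥ 1/2 + 2ε`: `mu ≤ (1+T)² mu/‖ρ‖² ≤ 4 T² mu X^(2(Re ρ-σ))/‖ρ‖²` for
`ρ ∈ Zf χ σ T ⊆ Zf χ σ (X^1)` (`‖ρ‖ ≤ 1 + T ≤ 2 T`), `all_lower 1 ε` and `window_bound`:
`≤ 4 T² X^ε φ(q) C²/(2ε) X^(1+2ε-2σ)`. If `σ < 1/2 + 2ε`: `zeros_trivial 1`:
`∑_χ ∑ mu ≤ 4 T² φ(q) C' log X ≤ φ(q) T² X^(2ε)` and `X^(2ε) ≤ X^(1-2σ+6ε)`. -/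
lemma montgomery_zeros (C ε : ℝ) (hε : 0 < ε) : ∃ (K : ℕ) (X₀ : ℝ), 1 ≤ K ∧ 1 ≤ X₀ ∧
    ∀ (q : ℕ) [NeZero q] (X σ T : ℝ), (q : ℝ) ≤ X → X₀ ≤ X → 1 / 2 ≤ σ → 1 ≤ T → T ≤ X →
    (∀ x : ℝ, X ≤ x → x ≤ X ^ K → ∀ a : ℕ, 1 ≤ a → a ≤ q → Nat.Coprime a q →
      |psi x q a - x / (Nat.totient q : ℝ)| ≤ C * x ^ (1 / 2 + ε) / (q : ℝ) ^ (1 / 2 : ℝ)) →
    ∑ χ : DirichletCharacter ℂ q, ∑ ρ ∈ Zf χ σ T, mu χ ρ
      ≤ (Nat.totient q : ℝ) * T ^ 2 * X ^ (1 - 2 * σ + 6 * ε) := by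
  classical
  obtain ⟨K, X₁, hK, hX₁, h⟩ := all_lower 1 ε hε
  obtain ⟨C', X₃, hC', hz⟩ := zeros_trivial 1
  obtain ⟨X₂, hX₂⟩ := Filter.eventually_atTop.mp
    ((evX_const (4 * (C ^ 2 / (2 * ε))) ε hε).and (evX_log (4 * C') (2 * ε) (by positivity)))
  refine ⟨K, max X₁ (max X₂ X₃), hK, le_trans hX₁ (le_max_left _ _),
    fun q _ X σ T hqX hX hσ hT1 hTX hM => ?_⟩
  have hXX₁ : X₁ ≤ X := le_trans (le_max_left _ _) hX
  have hXX₂ : X₂ ≤ X := le_trans ((le_max_left _ _).trans (le_max_right _ _)) hX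
  have hXX₃ : X₃ ≤ X := le_trans ((le_max_right _ _).trans (le_max_right _ _)) hX
  have hX1 : 1 ≤ X := hX₁.trans hXX₁
  have hX0 : 0 < X := by linarith
  obtain ⟨hc1, hc2⟩ := hX₂ X hXX₂
  have hT0 : 0 < T := by linarith
  have htot : (0 : ℝ) < Nat.totient q := by
    exact_mod_cast Nat.totient_pos.mpr (Nat.pos_of_ne_zero (NeZero.ne q))
  have hTX1 : T ≤ X ^ 1 := by rw [pow_one]; exact hTX
  rcases le_or_gt (1 / 2 + 2 * ε) σ with hcase | hcase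
  · have h1 : ∀ χ : DirichletCharacter ℂ q, ∑ ρ ∈ Zf χ σ T, mu χ ρ ≤
        4 * T ^ 2 * ∑ ρ ∈ Zf χ σ (X ^ 1), mu χ ρ * X ^ (2 * (ρ.re - σ)) / ‖ρ‖ ^ 2 := by
      intro χ
      rw [Finset.mul_sum]
      calc ∑ ρ ∈ Zf χ σ T, mu χ ρ
          ≤ ∑ ρ ∈ Zf χ σ T, 4 * T ^ 2 * (mu χ ρ * X ^ (2 * (ρ.re - σ)) / ‖ρ‖ ^ 2) := by
            refine Finset.sum_le_sum fun ρ hρ => ?_
            rw [mem_Zf] at hρ
            refine (Ah_mu_le χ hT1 hρ.1 (hσ.trans hρ.2.1) hρ.2.2).trans ?_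
            have h2 : (1 : ℝ) ≤ X ^ (2 * (ρ.re - σ)) :=
              Real.one_le_rpow hX1 (by linarith [hρ.2.1])
            have h3 := mu_nonneg χ ρ
            have h4 : mu χ ρ ≤ mu χ ρ * X ^ (2 * (ρ.re - σ)) := le_mul_of_one_le_right h3 h2
            gcongr
        _ ≤ ∑ ρ ∈ Zf χ σ (X ^ 1), 4 * T ^ 2 * (mu χ ρ * X ^ (2 * (ρ.re - σ)) / ‖ρ‖ ^ 2) := by
            refine Finset.sum_le_sum_of_subset_of_nonneg (Ah_sub χ le_rfl hTX1) fun ρ _ _ => ?_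
            have h3 := mu_nonneg χ ρ
            positivity
    have h2 := h q X σ hqX hXX₁ hσ
    have h3 := window_bound C ε hε q K X σ hX1 hcase hM
    calc ∑ χ : DirichletCharacter ℂ q, ∑ ρ ∈ Zf χ σ T, mu χ ρ
        ≤ ∑ χ : DirichletCharacter ℂ q,
          4 * T ^ 2 * ∑ ρ ∈ Zf χ σ (X ^ 1), mu χ ρ * X ^ (2 * (ρ.re - σ)) / ‖ρ‖ ^ 2 :=
          Finset.sum_le_sum fun χ _ => h1 χ
      _ = 4 * T ^ 2 * ∑ χ : DirichletCharacter ℂ q,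
          ∑ ρ ∈ Zf χ σ (X ^ 1), mu χ ρ * X ^ (2 * (ρ.re - σ)) / ‖ρ‖ ^ 2 := by
          rw [← Finset.mul_sum]
      _ ≤ 4 * T ^ 2 * (X ^ ε * ((Nat.totient q : ℝ) *
          ∫ x in Ioc X (X ^ K), V x q * x ^ (-1 - 2 * σ))) := by gcongr
      _ ≤ 4 * T ^ 2 * (X ^ ε * ((Nat.totient q : ℝ) *
          (C ^ 2 / (2 * ε) * X ^ (1 + 2 * ε - 2 * σ)))) := by gcongr
      _ = (Nat.totient q : ℝ) * T ^ 2 *
          ((4 * (C ^ 2 / (2 * ε))) * (X ^ ε * X ^ (1 + 2 * ε - 2 * σ))) := by ring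
      _ ≤ (Nat.totient q : ℝ) * T ^ 2 * (X ^ ε * (X ^ ε * X ^ (1 + 2 * ε - 2 * σ))) := by
          gcongr
      _ = (Nat.totient q : ℝ) * T ^ 2 * X ^ (1 - 2 * σ + 4 * ε) := by
          rw [← Real.rpow_add hX0, ← Real.rpow_add hX0]
          congr 2
          ring
      _ ≤ (Nat.totient q : ℝ) * T ^ 2 * X ^ (1 - 2 * σ + 6 * ε) := by
          have h5 : X ^ (1 - 2 * σ + 4 * ε) ≤ X ^ (1 - 2 * σ + 6 * ε) :=
            Real.rpow_le_rpow_of_exponent_le hX1 (by linarith)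
          gcongr
  · have h1 : ∀ χ : DirichletCharacter ℂ q, ∑ ρ ∈ Zf χ σ T, mu χ ρ ≤
        T ^ 2 * (4 * C' * Real.log X) := by
      intro χ
      calc ∑ ρ ∈ Zf χ σ T, mu χ ρ
          ≤ ∑ ρ ∈ Zf χ σ T, 4 * T ^ 2 * (mu χ ρ / ‖ρ‖ ^ 2) := by
            refine Finset.sum_le_sum fun ρ hρ => ?_
            rw [mem_Zf] at hρ
            exact Ah_mu_le χ hT1 hρ.1 (hσ.trans hρ.2.1) hρ.2.2
        _ ≤ ∑ ρ ∈ Zf χ (1 / 2) (X ^ 1), 4 * T ^ 2 * (mu χ ρ / ‖ρ‖ ^ 2) := by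
            refine Finset.sum_le_sum_of_subset_of_nonneg (Ah_sub χ hσ hTX1) fun ρ _ _ => ?_
            have h3 := mu_nonneg χ ρ
            positivity
        _ = 4 * T ^ 2 * ∑ ρ ∈ Zf χ (1 / 2) (X ^ 1), mu χ ρ / ‖ρ‖ ^ 2 := by
            rw [← Finset.mul_sum]
        _ ≤ 4 * T ^ 2 * (C' * Real.log X) := by
            have := hz q X hqX hXX₃ χ
            gcongr
        _ = T ^ 2 * (4 * C' * Real.log X) := by ring
    have hcard : ((Finset.univ : Finset (DirichletCharacter ℂ q)).card : ℝ) =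
        (Nat.totient q : ℝ) := by
      rw [Finset.card_univ, ← Nat.card_eq_fintype_card,
        DirichletCharacter.card_eq_totient_of_hasEnoughRootsOfUnity ℂ q]
    calc ∑ χ : DirichletCharacter ℂ q, ∑ ρ ∈ Zf χ σ T, mu χ ρ
        ≤ ∑ _χ : DirichletCharacter ℂ q, T ^ 2 * (4 * C' * Real.log X) :=
          Finset.sum_le_sum fun χ _ => h1 χ
      _ = (Nat.totient q : ℝ) * (T ^ 2 * (4 * C' * Real.log X)) := by
          rw [Finset.sum_const, nsmul_eq_mul, hcard]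
      _ ≤ (Nat.totient q : ℝ) * (T ^ 2 * X ^ (2 * ε)) := by gcongr
      _ ≤ (Nat.totient q : ℝ) * (T ^ 2 * X ^ (1 - 2 * σ + 6 * ε)) := by
          have h5 : X ^ (2 * ε) ≤ X ^ (1 - 2 * σ + 6 * ε) :=
            Real.rpow_le_rpow_of_exponent_le hX1 (by linarith)
          gcongr
      _ = (Nat.totient q : ℝ) * T ^ 2 * X ^ (1 - 2 * σ + 6 * ε) := by ring

end Pool.Agent.TS
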