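import Pool.Agent.Lib.MP_9cfc0a_nt.TS.Ad
import Pool.Agent.Lib.MP_9cfc0a_nt.TS.Aj
import Pool.Agent.Lib.MP_9cfc0a_nt.TS.Lp

/-!
# Fa: the upper bound of the two-sided law, dyadic
-/

set_option autoImplicit false

namespace Pool.Agent.TS

open Complex Metric Set MeasureTheory
open Pool.Agent.EM

/-- the sum over the zeros of all `L(s, χ)` mod `q` -/
noncomputable def ZZ (q : ℕ) [NeZero q] (σ T X : ℝ) : ℝ :=
  ∑ χ : DirichletCharacter ℂ q, ∑ ρ ∈ Zf χ σ T, mu χ ρ * X ^ (2 * (ρ.re - σ)) / ‖ρ‖ ^ 2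

lemma ZZ_nonneg (q : ℕ) [NeZero q] (σ T X : ℝ) (hX : 0 ≤ X) : 0 ≤ ZZ q σ T X := by
  unfold ZZ
  refine Finset.sum_nonneg fun χ _ => Finset.sum_nonneg fun ρ _ => ?_
  have := mu_nonneg χ ρ
  positivity

lemma ZZ_mono (q : ℕ) [NeZero q] (σ T T' X : ℝ) (hX : 0 ≤ X) (hT : T ≤ T') :
    ZZ q σ T X ≤ ZZ q σ T' X := by
  unfold ZZ
  refine Finset.sum_le_sum fun χ _ => ?_
  refine Finset.sum_le_sum_of_subset_of_nonneg ?_ fun ρ _ _ => ?_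
  · intro ρ hρ
    rw [mem_Zf] at hρ ⊢
    exact ⟨hρ.1, hρ.2.1, hρ.2.2.trans hT⟩
  · have := mu_nonneg χ ρ
    positivity

/-- Upper bound, dyadic. -/
lemma upper_dyadic (ε : ℝ) (hε : 0 < ε) : ∃ X₁ : ℝ, 1 ≤ X₁ ∧
    ∀ (q : ℕ) [NeZero q] (X x σ : ℝ), (q : ℝ) ≤ X → X₁ ≤ X → 1 / 2 ≤ σ → 1 ≤ x → x ≤ X →
    ∫ y in Ioc x (2 * x), V y q * y ^ (-1 - 2 * σ)
      ≤ X ^ ε * (1 + ZZ q σ X X / (Nat.totient q : ℝ)) := by
  obtain ⟨X₁, hX₁, hU⟩ := all_upper (ε / 2) (by linarith)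
  obtain ⟨C, X₂, hC, hT⟩ := zeros_trivial 1
  obtain ⟨X₃, hX₃⟩ := Filter.eventually_atTop.mp ((evX_log (2 * C) (ε / 2) (by linarith)).and
    (evX_const 2 (ε / 2) (by linarith)))
  refine ⟨max X₁ (max X₂ X₃), le_trans hX₁ (le_max_left _ _), fun q _ X x σ hqX hX hσ hx hxX => ?_⟩
  have hXa : X₁ ≤ X := le_trans (le_max_left _ _) hX
  have hXb : X₂ ≤ X := le_trans (le_max_left _ _) (le_trans (le_max_right _ _) hX)
  have hXc : X₃ ≤ X := le_trans (le_max_right _ _) (le_trans (le_max_right _ _) hX)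
  have hX1 : 1 ≤ X := hX₁.trans hXa
  have hX0 : 0 < X := by linarith
  have hx0 : 0 < x := by linarith
  obtain ⟨hlog, hconst⟩ := hX₃ X hXc
  have htot : (0 : ℝ) < Nat.totient q := by
    exact_mod_cast Nat.totient_pos.mpr (Nat.pos_of_ne_zero (NeZero.ne q))
  set φ : ℝ := (Nat.totient q : ℝ) with hφ
  have hcard : (Fintype.card (DirichletCharacter ℂ q) : ℝ) = φ := by
    rw [hφ, ← DirichletCharacter.card_eq_totient_of_hasEnoughRootsOfUnity ℂ q,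
      Nat.card_eq_fintype_card]
  -- integrals
  have hle : ∫ y in Ioc x (2 * x), V y q * y ^ (-1 - 2 * σ)
      ≤ x ^ (1 - 2 * σ) * ∫ y in Ioc x (2 * x), V y q * y ^ (-2 : ℝ) := by
    rw [← integral_const_mul]
    have hint2 : IntegrableOn (fun y : ℝ => V y q * y ^ (-2 : ℝ)) (Ioc x (2 * x)) := by
      have := integrable_V_window' q (1 / 2) x (2 * x) le_rfl hx
      norm_num at this ⊢
      exact this
    refine setIntegral_mono_on (integrable_V_window' q σ x (2 * x) hσ hx) (hint2.const_mul _)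
      measurableSet_Ioc fun y hy => ?_
    have hy0 : 0 < y := by linarith [hy.1]
    have h1 : y ^ (-1 - 2 * σ) = y ^ (1 - 2 * σ) * y ^ (-2 : ℝ) := by
      rw [← Real.rpow_add hy0]; congr 1; ring
    have h2 : y ^ (1 - 2 * σ) ≤ x ^ (1 - 2 * σ) :=
      Real.rpow_le_rpow_of_nonpos hx0 hy.1.le (by linarith)
    have h3 := V_nonneg y q
    calc V y q * y ^ (-1 - 2 * σ) = y ^ (1 - 2 * σ) * (V y q * y ^ (-2 : ℝ)) := by rw [h1]; ring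
      _ ≤ x ^ (1 - 2 * σ) * (V y q * y ^ (-2 : ℝ)) := by gcongr
  have hU' := hU q X x hqX hXa hx hxX
  have hp1 : x ^ (1 - 2 * σ) ≤ 1 := Real.rpow_le_one_of_one_le_of_nonpos hx (by linarith)
  have hp0 : 0 ≤ x ^ (1 - 2 * σ) := by positivity
  have hsum : x ^ (1 - 2 * σ) * ∑ χ : DirichletCharacter ℂ q,
      ∑ ρ ∈ Zf χ (1 / 2) X, mu χ ρ * x ^ (2 * ρ.re - 1) / ‖ρ‖ ^ 2
      ≤ φ * (C * Real.log X) + ZZ q σ X X := by
    rw [Finset.mul_sum]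
    have h1 : ∀ χ : DirichletCharacter ℂ q, x ^ (1 - 2 * σ) *
        ∑ ρ ∈ Zf χ (1 / 2) X, mu χ ρ * x ^ (2 * ρ.re - 1) / ‖ρ‖ ^ 2
        ≤ C * Real.log X + ∑ ρ ∈ Zf χ σ X, mu χ ρ * X ^ (2 * (ρ.re - σ)) / ‖ρ‖ ^ 2 := by
      intro χ
      have h2 := split_zeros χ X x σ hx hxX hσ
      have h3 := hT q X hqX hXb χ
      rw [pow_one] at h3
      rw [Finset.mul_sum]
      have h4 : ∑ ρ ∈ Zf χ (1 / 2) X, x ^ (1 - 2 * σ) * (mu χ ρ * x ^ (2 * ρ.re - 1) / ‖ρ‖ ^ 2)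
          = ∑ ρ ∈ Zf χ (1 / 2) X, mu χ ρ * x ^ (2 * (ρ.re - σ)) / ‖ρ‖ ^ 2 := by
        refine Finset.sum_congr rfl fun ρ _ => ?_
        have : x ^ (2 * (ρ.re - σ)) = x ^ (1 - 2 * σ) * x ^ (2 * ρ.re - 1) := by
          rw [← Real.rpow_add hx0]; congr 1; ring
        rw [this]; ring
      rw [h4]
      linarith
    refine (Finset.sum_le_sum fun χ _ => h1 χ).trans (le_of_eq ?_)
    rw [Finset.sum_add_distrib, Finset.sum_const, Finset.card_univ, nsmul_eq_mul, hcard]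
    rfl
  have hZ0 := ZZ_nonneg q σ X X hX0.le
  have hlog0 : 0 ≤ Real.log X := Real.log_nonneg hX1
  have hmain : φ * ∫ y in Ioc x (2 * x), V y q * y ^ (-1 - 2 * σ)
      ≤ X ^ (ε / 2) * (φ + (φ * (C * Real.log X) + ZZ q σ X X)) := by
    calc φ * ∫ y in Ioc x (2 * x), V y q * y ^ (-1 - 2 * σ)
        ≤ φ * (x ^ (1 - 2 * σ) * ∫ y in Ioc x (2 * x), V y q * y ^ (-2 : ℝ)) := by gcongr
      _ = x ^ (1 - 2 * σ) * (φ * ∫ y in Ioc x (2 * x), V y q * y ^ (-2 : ℝ)) := by ring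
      _ ≤ x ^ (1 - 2 * σ) * (X ^ (ε / 2) * (φ + ∑ χ : DirichletCharacter ℂ q,
          ∑ ρ ∈ Zf χ (1 / 2) X, mu χ ρ * x ^ (2 * ρ.re - 1) / ‖ρ‖ ^ 2)) := by gcongr
      _ = X ^ (ε / 2) * (x ^ (1 - 2 * σ) * φ + x ^ (1 - 2 * σ) * ∑ χ : DirichletCharacter ℂ q,
          ∑ ρ ∈ Zf χ (1 / 2) X, mu χ ρ * x ^ (2 * ρ.re - 1) / ‖ρ‖ ^ 2) := by ring
      _ ≤ X ^ (ε / 2) * (1 * φ + (φ * (C * Real.log X) + ZZ q σ X X)) := by gcongr
      _ = _ := by ring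
  have hbig : 1 + C * Real.log X ≤ X ^ (ε / 2) := by linarith
  have h5 : φ + (φ * (C * Real.log X) + ZZ q σ X X) ≤ X ^ (ε / 2) * (φ + ZZ q σ X X) := by
    calc φ + (φ * (C * Real.log X) + ZZ q σ X X)
        = (1 + C * Real.log X) * φ + 1 * ZZ q σ X X := by ring
      _ ≤ X ^ (ε / 2) * φ + X ^ (ε / 2) * ZZ q σ X X := by
          have : (1 : ℝ) ≤ X ^ (ε / 2) := by
            have : 0 ≤ C * Real.log X := by positivity
            linarith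
          gcongr
      _ = _ := by ring
  have h6 : X ^ (ε / 2) * X ^ (ε / 2) = X ^ ε := by
    rw [← Real.rpow_add hX0]; congr 1; ring
  have h7 : φ * ∫ y in Ioc x (2 * x), V y q * y ^ (-1 - 2 * σ)
      ≤ φ * (X ^ ε * (1 + ZZ q σ X X / φ)) := by
    calc φ * ∫ y in Ioc x (2 * x), V y q * y ^ (-1 - 2 * σ)
        ≤ X ^ (ε / 2) * (X ^ (ε / 2) * (φ + ZZ q σ X X)) := hmain.trans (by gcongr)
      _ = X ^ ε * (φ + ZZ q σ X X) := by rw [← mul_assoc, h6]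
      _ = φ * (X ^ ε * (1 + ZZ q σ X X / φ)) := by field_simp
  exact le_of_mul_le_mul_left h7 htot

end Pool.Agent.TS
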