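import Pool.Agent.Lib.MP_9cfc0a_nt.TS.Fb
import Pool.Agent.Lib.MP_9cfc0a_nt.TS.Ag

/-!
# Gt: a finite-window test for the generalized Riemann hypothesis
-/

set_option autoImplicit false

namespace Pool.Agent.TS

open Complex Metric Set MeasureTheory
open Pool.Agent.EM

/-- a single zero bounds the zero sum from below -/
lemma ZZ_ge_one (q : ℕ) [NeZero q] (χ : DirichletCharacter ℂ q) (ρ : ℂ) (σ T X : ℝ)
    (hX : 1 ≤ X) (h0 : χ.LFunction ρ = 0) (h1 : σ ≤ ρ.re) (h2 : ρ.re < 1) (h3 : |ρ.im| ≤ T) :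
    X ^ (2 * (ρ.re - σ)) / ‖ρ‖ ^ 2 ≤ ZZ q σ T X := by
  have hmem : ρ ∈ Zf χ σ T := (mem_Zf_iff χ σ T ρ).2 ⟨h0, h1, h2, h3⟩
  have hF : MC.FF q χ ρ = 0 := ((mem_Zf χ σ T ρ).1 hmem).1
  have hmu := one_le_mu χ ρ hF
  have hX0 : 0 < X := by linarith
  unfold ZZ
  calc X ^ (2 * (ρ.re - σ)) / ‖ρ‖ ^ 2
      = 1 * X ^ (2 * (ρ.re - σ)) / ‖ρ‖ ^ 2 := by rw [one_mul]
    _ ≤ mu χ ρ * X ^ (2 * (ρ.re - σ)) / ‖ρ‖ ^ 2 := by gcongr
    _ ≤ ∑ ρ ∈ Zf χ σ T, mu χ ρ * X ^ (2 * (ρ.re - σ)) / ‖ρ‖ ^ 2 := by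
        refine Finset.single_le_sum
          (f := fun ρ : ℂ => mu χ ρ * X ^ (2 * (ρ.re - σ)) / ‖ρ‖ ^ 2) (fun r _ => ?_) hmem
        have := mu_nonneg χ r
        positivity
    _ ≤ _ := by
        refine Finset.single_le_sum (f := fun χ : DirichletCharacter ℂ q =>
          ∑ ρ ∈ Zf χ σ T, mu χ ρ * X ^ (2 * (ρ.re - σ)) / ‖ρ‖ ^ 2) (fun c _ => ?_)
          (Finset.mem_univ χ)
        refine Finset.sum_nonneg fun r _ => ?_
        have := mu_nonneg c r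
        positivity

lemma ZZ_eq_zero (q : ℕ) [NeZero q] (θ σ T X : ℝ) (hσ : θ < σ)
    (h : ∀ (χ : DirichletCharacter ℂ q) (ρ : ℂ), χ.LFunction ρ = 0 → ρ.re < 1 → ρ.re ≤ θ) :
    ZZ q σ T X = 0 := by
  unfold ZZ
  refine Finset.sum_eq_zero fun χ _ => ?_
  have : Zf χ σ T = ∅ := by
    refine Finset.eq_empty_of_forall_notMem fun ρ hρ => ?_
    obtain ⟨h0, h1, h2, -⟩ := (mem_Zf_iff χ σ T ρ).1 hρ
    have := h χ ρ h0 h2
    linarith
  rw [this, Finset.sum_empty]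

/-- the exponent `⌈1/ε⌉₊` -/
lemma ceil_pos' (ε : ℝ) (hε : 0 < ε) : 1 ≤ ⌈1 / ε⌉₊ :=
  Nat.one_le_iff_ne_zero.2 (Nat.ceil_pos.2 (by positivity)).ne'

lemma le_rpow_eps (q ε : ℝ) (hq : 1 ≤ q) (hε : 0 < ε) : q ≤ (q ^ ⌈1 / ε⌉₊) ^ ε := by
  have h1 : 1 / ε ≤ (⌈1 / ε⌉₊ : ℝ) := Nat.le_ceil _
  have h2 : 1 ≤ (⌈1 / ε⌉₊ : ℝ) * ε := by
    rw [div_le_iff₀ hε] at h1
    exact h1
  calc q = q ^ (1 : ℝ) := (Real.rpow_one q).symm
    _ ≤ q ^ ((⌈1 / ε⌉₊ : ℝ) * ε) := Real.rpow_le_rpow_of_exponent_le hq h2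
    _ = (q ^ ⌈1 / ε⌉₊) ^ ε := by
        rw [Real.rpow_mul (by linarith), Real.rpow_natCast]

/-- For `θ ≥ 1/2`: no `L(s, χ)` of any modulus has a zero with `θ < Re ρ < 1` if and only if for
every `ε > 0` all large `q` satisfy a bound in the window `[q, q^K]`, `K = K(ε)`. -/
theorem grh_test : ∃ K : ℝ → ℕ, ∀ θ : ℝ, 1 / 2 ≤ θ →
    ((∀ (q : ℕ) [NeZero q] (χ : DirichletCharacter ℂ q) (ρ : ℂ),
      χ.LFunction ρ = 0 → ρ.re < 1 → ρ.re ≤ θ) ↔
    ∀ ε : ℝ, 0 < ε → ∃ q₀ : ℕ, ∀ q : ℕ, q₀ ≤ q →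
      ∫ x in (q : ℝ)..((q : ℝ) ^ K ε), V x q * x ^ (-1 - 2 * θ) ≤ (q : ℝ) ^ ε) := by
  choose! K X₀ hK hX₀ hTS using two_sided 1
  refine ⟨fun ε => ⌈1 / ε⌉₊ * K ε, fun θ hθ =>
    ⟨fun hG ε hε => ?_, fun hW q₁ _ χ ρ hρ0 hρ1 => ?_⟩⟩
  · -- the hypothesis implies the window bound
    have hL : 1 ≤ ⌈1 / ε⌉₊ * K ε := Nat.mul_pos (ceil_pos' ε hε) (hK ε hε)
    set L : ℕ := ⌈1 / ε⌉₊ * K ε with hLdef
    have hLr : (1 : ℝ) ≤ L := by exact_mod_cast hL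
    have hL0 : (0 : ℝ) < L := by linarith
    have hε' : 0 < ε / (2 * L) := by positivity
    refine ⟨max 1 ⌈X₀ (ε / (2 * L))⌉₊, fun q hq => ?_⟩
    have hq1 : 1 ≤ q := (le_max_left _ _).trans hq
    have hq2 : X₀ (ε / (2 * L)) ≤ q :=
      (Nat.le_ceil _).trans (by exact_mod_cast (le_max_right _ _).trans hq)
    have : NeZero q := ⟨by omega⟩
    have hqr : (1 : ℝ) ≤ q := by exact_mod_cast hq1
    have hq0 : (0 : ℝ) < q := by linarith
    set Y : ℝ := (q : ℝ) ^ L with hY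
    have hXY : (q : ℝ) ≤ Y := by
      calc (q : ℝ) = (q : ℝ) ^ 1 := (pow_one _).symm
        _ ≤ Y := pow_le_pow_right₀ hqr hL
    have hY1 : 1 ≤ Y := hqr.trans hXY
    have hY0 : 0 < Y := by linarith
    set δ : ℝ := ε / (4 * L) with hδ
    have hδ0 : 0 < δ := by positivity
    have h1 := (hTS (ε / (2 * L)) hε' q Y Y (θ + δ) hXY (hq2.trans hXY) (by linarith)).1 le_rfl
    rw [ZZ_eq_zero q θ (θ + δ) Y Y (by linarith) (fun χ ρ => hG q χ ρ), zero_div, add_zero,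
      mul_one] at h1
    rw [intervalIntegral.integral_of_le hXY]
    have hint : IntegrableOn (fun y : ℝ => V y q * y ^ (-1 - 2 * (θ + δ))) (Ioc (q : ℝ) Y) :=
      integrable_V_window' q (θ + δ) q Y (by linarith) hqr
    have hint1 : IntegrableOn (fun y : ℝ => V y q * y ^ (-1 - 2 * (θ + δ))) (Ioc 1 Y) :=
      integrable_V_window' q (θ + δ) 1 Y (by linarith) le_rfl
    have hYe : Y ^ (ε / L) = (q : ℝ) ^ ε := by
      rw [hY, ← Real.rpow_natCast, ← Real.rpow_mul hq0.le]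
      congr 1
      field_simp
    calc ∫ y in Ioc (q : ℝ) Y, V y q * y ^ (-1 - 2 * θ)
        ≤ ∫ y in Ioc (q : ℝ) Y, Y ^ (2 * δ) * (V y q * y ^ (-1 - 2 * (θ + δ))) := by
          refine setIntegral_mono_on (integrable_V_window' q θ q Y hθ hqr) (hint.const_mul _)
            measurableSet_Ioc fun y hy => ?_
          have hy0 : 0 < y := by linarith [hy.1]
          have hV := V_nonneg y q
          have e1 : y ^ (-1 - 2 * (θ + δ)) * y ^ (2 * δ) = y ^ (-1 - 2 * θ) := by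
            rw [← Real.rpow_add hy0]
            congr 1
            ring
          have e2 : y ^ (2 * δ) ≤ Y ^ (2 * δ) :=
            Real.rpow_le_rpow hy0.le hy.2 (by positivity)
          have e3 : 0 ≤ V y q * y ^ (-1 - 2 * (θ + δ)) := by positivity
          calc V y q * y ^ (-1 - 2 * θ) = (V y q * y ^ (-1 - 2 * (θ + δ))) * y ^ (2 * δ) := by
                rw [mul_assoc, e1]
            _ ≤ (V y q * y ^ (-1 - 2 * (θ + δ))) * Y ^ (2 * δ) := by gcongr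
            _ = _ := mul_comm _ _
      _ = Y ^ (2 * δ) * ∫ y in Ioc (q : ℝ) Y, V y q * y ^ (-1 - 2 * (θ + δ)) :=
          integral_const_mul _ _
      _ ≤ Y ^ (2 * δ) * ∫ y in Ioc 1 Y, V y q * y ^ (-1 - 2 * (θ + δ)) := by
          refine mul_le_mul_of_nonneg_left ?_ (by positivity)
          refine setIntegral_mono_set hint1 ?_ (ae_of_all _ (Ioc_subset_Ioc_left hqr))
          refine (ae_restrict_iff' measurableSet_Ioc).mpr (ae_of_all _ fun y hy => ?_)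
          have hy0 : 0 < y := by linarith [hy.1]
          have := V_nonneg y q
          simp only [Pi.zero_apply]
          positivity
      _ ≤ Y ^ (2 * δ) * Y ^ (ε / (2 * L)) := by gcongr
      _ = (q : ℝ) ^ ε := by
          rw [← Real.rpow_add hY0, ← hYe]
          congr 1
          rw [hδ]
          field_simp
          ring
  · -- the window bound implies the hypothesis
    by_contra hcon
    push Not at hcon
    set η : ℝ := 2 * (ρ.re - θ) with hη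
    have hη0 : 0 < η := by linarith
    set ε : ℝ := η / 8 with hεdef
    have hε : 0 < ε := by positivity
    obtain ⟨q₀, hq₀⟩ := hW ε hε
    have hq₁ : 1 ≤ q₁ := Nat.one_le_iff_ne_zero.2 (NeZero.ne q₁)
    -- the modulus
    set n : ℕ := q₀ + ⌈X₀ ε⌉₊ + ⌈|ρ.im|⌉₊ + ⌈‖ρ‖ ^ 2⌉₊ + 2 with hn
    set q : ℕ := q₁ * n with hq
    have hnq : n ≤ q := Nat.le_mul_of_pos_left n (by omega)
    have : NeZero q := ⟨by
      have : 1 ≤ n := by omega
      have := this.trans hnq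
      omega⟩
    have hdvd : q₁ ∣ q := Dvd.intro _ rfl
    have hq0' : q₀ ≤ q := by omega
    have hnqr : (n : ℝ) ≤ q := by exact_mod_cast hnq
    have hnr : (n : ℝ) = q₀ + ⌈X₀ ε⌉₊ + ⌈|ρ.im|⌉₊ + ⌈‖ρ‖ ^ 2⌉₊ + 2 := by
      rw [hn]; push_cast; ring
    have c0 : (0 : ℝ) ≤ q₀ := Nat.cast_nonneg _
    have c1 : (0 : ℝ) ≤ ⌈X₀ ε⌉₊ := Nat.cast_nonneg _
    have c2 : (0 : ℝ) ≤ ⌈|ρ.im|⌉₊ := Nat.cast_nonneg _
    have c3 : (0 : ℝ) ≤ ⌈‖ρ‖ ^ 2⌉₊ := Nat.cast_nonneg _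
    have d1 : X₀ ε ≤ ⌈X₀ ε⌉₊ := Nat.le_ceil _
    have d2 : |ρ.im| ≤ ⌈|ρ.im|⌉₊ := Nat.le_ceil _
    have d3 : ‖ρ‖ ^ 2 ≤ ⌈‖ρ‖ ^ 2⌉₊ := Nat.le_ceil _
    have hqr : (1 : ℝ) ≤ q := by linarith
    have hqpos : (0 : ℝ) < q := by linarith
    set X : ℝ := (q : ℝ) ^ ⌈1 / ε⌉₊ with hX
    have hqX : (q : ℝ) ≤ X := by
      calc (q : ℝ) = (q : ℝ) ^ 1 := (pow_one _).symm
        _ ≤ X := pow_le_pow_right₀ hqr (ceil_pos' ε hε)
    have hX1 : 1 ≤ X := hqr.trans hqX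
    have hX0 : 0 < X := by linarith
    have hqe : (q : ℝ) ≤ X ^ ε := le_rpow_eps q ε hqr hε
    have hXY : X ≤ X ^ K ε := by
      calc X = X ^ 1 := (pow_one _).symm
        _ ≤ X ^ K ε := pow_le_pow_right₀ hX1 (hK ε hε)
    -- the zero mod q
    have hρne : ρ ≠ 1 := by
      rintro rfl
      simp at hρ1
    have hρ' : (DirichletCharacter.changeLevel hdvd χ).LFunction ρ = 0 := by
      rw [DirichletCharacter.LFunction_changeLevel hdvd χ (.inr hρne), hρ0, zero_mul]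
    have h1 := ZZ_ge_one q (DirichletCharacter.changeLevel hdvd χ) ρ θ X X hX1 hρ'
      hcon.le hρ1 (by linarith)
    have h2 := (hTS ε hε q X X θ hqX (by linarith) hθ).2 (by rw [pow_one])
    have h3 := hq₀ q hq0'
    have hpow : (q : ℝ) ^ (⌈1 / ε⌉₊ * K ε) = X ^ K ε := by rw [hX, ← pow_mul]
    rw [hpow, intervalIntegral.integral_of_le (hqX.trans hXY)] at h3
    have h3' : ∫ y in Ioc X (X ^ K ε), V y q * y ^ (-1 - 2 * θ) ≤ X ^ ε := by
      calc ∫ y in Ioc X (X ^ K ε), V y q * y ^ (-1 - 2 * θ)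
          ≤ ∫ y in Ioc (q : ℝ) (X ^ K ε), V y q * y ^ (-1 - 2 * θ) := by
            refine setIntegral_mono_set (integrable_V_window' q θ q _ hθ hqr) ?_
              (ae_of_all _ (Ioc_subset_Ioc_left hqX))
            refine (ae_restrict_iff' measurableSet_Ioc).mpr (ae_of_all _ fun y hy => ?_)
            have hy0 : 0 < y := by linarith [hy.1]
            have := V_nonneg y q
            simp only [Pi.zero_apply]
            positivity
        _ ≤ (q : ℝ) ^ ε := h3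
        _ ≤ X ^ ε := Real.rpow_le_rpow hqpos.le hqX hε.le
    have htot : (0 : ℝ) < Nat.totient q := by
      exact_mod_cast Nat.totient_pos.mpr (Nat.pos_of_ne_zero (NeZero.ne q))
    have htotle : (Nat.totient q : ℝ) ≤ X ^ ε := by
      refine le_trans ?_ hqe
      exact_mod_cast Nat.totient_le q
    rw [div_le_iff₀ htot] at h2
    have hρpos : 0 < ‖ρ‖ := by
      refine norm_pos_iff.2 ?_
      rintro rfl
      rw [Complex.zero_re] at hcon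
      linarith
    have hpe : 0 < X ^ ε := by positivity
    have h4 : X ^ (2 * (ρ.re - θ)) ≤ ‖ρ‖ ^ 2 * (X ^ ε * X ^ ε * X ^ ε) := by
      rw [div_le_iff₀ (by positivity)] at h1
      calc X ^ (2 * (ρ.re - θ)) ≤ ZZ q θ X X * ‖ρ‖ ^ 2 := h1
        _ ≤ ((X ^ ε * ∫ y in Ioc X (X ^ K ε), V y q * y ^ (-1 - 2 * θ)) *
            (Nat.totient q : ℝ)) * ‖ρ‖ ^ 2 := by gcongr
        _ ≤ ((X ^ ε * X ^ ε) * X ^ ε) * ‖ρ‖ ^ 2 := by gcongr
        _ = _ := by ring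
    have h5 : X ^ (2 * (ρ.re - θ)) = (X ^ ε) ^ 8 := by
      rw [← Real.rpow_natCast, ← Real.rpow_mul hX0.le]
      congr 1
      rw [hεdef, hη]
      push_cast
      ring
    rw [h5] at h4
    set E : ℝ := X ^ ε with hE
    have hE1 : 1 ≤ E := hqr.trans hqe
    have h6 : E ^ 5 ≤ ‖ρ‖ ^ 2 := by
      have h7 : E ^ 5 * E ^ 3 ≤ ‖ρ‖ ^ 2 * E ^ 3 := by
        calc E ^ 5 * E ^ 3 = E ^ 8 := by ring
          _ ≤ ‖ρ‖ ^ 2 * (E * E * E) := h4
          _ = _ := by ring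
      exact le_of_mul_le_mul_right h7 (by positivity)
    have h8 : E ≤ E ^ 5 := by
      calc E = E ^ 1 := (pow_one E).symm
        _ ≤ E ^ 5 := pow_le_pow_right₀ hE1 (by norm_num)
    linarith

end Pool.Agent.TS
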