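import Pool.Agent.Lib.MP_9cfc0a_nt.TS.Fb
import Pool.Agent.Lib.MP_9cfc0a_nt.TS.Ag

/-!
# Gu: the variance of one modulus and the density of its zeros
-/

set_option autoImplicit false

namespace Pool.Agent.TS

open Complex Metric Set MeasureTheory
open Pool.Agent.EM

lemma Zf_sub {q : ℕ} [NeZero q] (χ : DirichletCharacter ℂ q) {σ σ' T T' : ℝ}
    (hσ : σ' ≤ σ) (hT : T ≤ T') : Zf χ σ T ⊆ Zf χ σ' T' := by
  intro ρ hρ
  rw [mem_Zf] at hρ ⊢
  exact ⟨hρ.1, hσ.trans hρ.2.1, hρ.2.2.trans hT⟩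

/-- The variance controls the density of the zeros. -/
theorem density_of_variance (ε : ℝ) (hε : 0 < ε) : ∃ (K : ℕ) (X₀ : ℝ), 1 ≤ K ∧ 1 ≤ X₀ ∧
    ∀ (q : ℕ) [NeZero q] (X : ℝ), (q : ℝ) ≤ X → X₀ ≤ X →
    ∫ y in X..(X ^ K), V y q / y ^ 2 ≤ X ^ ε →
    ∀ σ T : ℝ, 1 / 2 ≤ σ → 1 ≤ T → T ≤ X →
    ∑ χ : DirichletCharacter ℂ q, ∑ ρ ∈ Zf χ σ T, mu χ ρ
      ≤ (Nat.totient q : ℝ) * T ^ 2 * X ^ (1 - 2 * σ + 3 * ε) := by
  obtain ⟨K, X₁, hK, hX₁, h⟩ := two_sided 1 ε hε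
  obtain ⟨X₂, hX₂⟩ := Filter.eventually_atTop.mp (evX_const 4 ε hε)
  refine ⟨K, max X₁ X₂, hK, le_trans hX₁ (le_max_left _ _),
    fun q _ X hqX hX hV σ T hσ hT1 hTX => ?_⟩
  have hXX₁ : X₁ ≤ X := le_trans (le_max_left _ _) hX
  have hXX₂ : X₂ ≤ X := le_trans (le_max_right _ _) hX
  have hX1 : 1 ≤ X := hX₁.trans hXX₁
  have hX0 : 0 < X := by linarith
  have hc := hX₂ X hXX₂
  have htot : (0 : ℝ) < Nat.totient q := by
    exact_mod_cast Nat.totient_pos.mpr (Nat.pos_of_ne_zero (NeZero.ne q))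
  have hXY : X ≤ X ^ K := by
    calc X = X ^ 1 := (pow_one _).symm
      _ ≤ X ^ K := pow_le_pow_right₀ hX1 hK
  have h2 := (h q X X (1 / 2) hqX hXX₁ le_rfl).2 (by rw [pow_one])
  rw [intervalIntegral.integral_of_le hXY] at hV
  have e1 : ∫ y in Ioc X (X ^ K), V y q * y ^ (-1 - 2 * (1 / 2) : ℝ)
      = ∫ y in Ioc X (X ^ K), V y q / y ^ 2 := by
    refine setIntegral_congr_fun measurableSet_Ioc fun y hy => ?_
    have hy0 : 0 < y := by linarith [hy.1]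
    show V y q * y ^ (-1 - 2 * (1 / 2) : ℝ) = V y q / y ^ 2
    rw [show (-1 - 2 * (1 / 2) : ℝ) = -(2 : ℕ) by norm_num, Real.rpow_neg hy0.le,
      Real.rpow_natCast]
    rfl
  rw [e1, div_le_iff₀ htot] at h2
  have hpe : 0 < X ^ ε := by positivity
  have h3 : ZZ q (1 / 2) X X ≤ (X ^ ε * X ^ ε) * (Nat.totient q : ℝ) := by
    refine h2.trans ?_
    gcongr
  have h4 : ∀ χ : DirichletCharacter ℂ q, ∑ ρ ∈ Zf χ σ T, mu χ ρ ≤
      4 * T ^ 2 * X ^ (1 - 2 * σ) *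
        ∑ ρ ∈ Zf χ (1 / 2) X, mu χ ρ * X ^ (2 * (ρ.re - 1 / 2)) / ‖ρ‖ ^ 2 := by
    intro χ
    rw [Finset.mul_sum]
    calc ∑ ρ ∈ Zf χ σ T, mu χ ρ
        ≤ ∑ ρ ∈ Zf χ σ T, 4 * T ^ 2 * X ^ (1 - 2 * σ) *
            (mu χ ρ * X ^ (2 * (ρ.re - 1 / 2)) / ‖ρ‖ ^ 2) := by
          refine Finset.sum_le_sum fun ρ hρ => ?_
          rw [mem_Zf] at hρ
          have h1 := Zf_re_lt χ ρ hρ.1
          have hre := hρ.2.1
          have h5 : ‖ρ‖ ≤ 2 * T := by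
            have h6 := Complex.norm_le_abs_re_add_abs_im ρ
            rw [abs_of_nonneg (by linarith)] at h6
            linarith [hρ.2.2]
          have h7 : 0 < ‖ρ‖ := by
            have h8 := Complex.abs_re_le_norm ρ
            rw [abs_of_nonneg (by linarith)] at h8
            linarith
          have h9 : 1 ≤ 4 * T ^ 2 / ‖ρ‖ ^ 2 := by
            rw [le_div_iff₀ (by positivity), one_mul]
            calc ‖ρ‖ ^ 2 ≤ (2 * T) ^ 2 := by gcongr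
              _ = 4 * T ^ 2 := by ring
          have h10 : 1 ≤ X ^ (1 - 2 * σ) * X ^ (2 * (ρ.re - 1 / 2)) := by
            rw [← Real.rpow_add hX0]
            exact Real.one_le_rpow hX1 (by linarith)
          have h11 := mu_nonneg χ ρ
          calc mu χ ρ = mu χ ρ * (1 * 1) := by ring
            _ ≤ mu χ ρ * ((4 * T ^ 2 / ‖ρ‖ ^ 2) *
                (X ^ (1 - 2 * σ) * X ^ (2 * (ρ.re - 1 / 2)))) := by gcongr
            _ = _ := by ring
      _ ≤ _ := by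
          refine Finset.sum_le_sum_of_subset_of_nonneg (Zf_sub χ hσ hTX) fun ρ _ _ => ?_
          have h3 := mu_nonneg χ ρ
          positivity
  calc ∑ χ : DirichletCharacter ℂ q, ∑ ρ ∈ Zf χ σ T, mu χ ρ
      ≤ ∑ χ : DirichletCharacter ℂ q, 4 * T ^ 2 * X ^ (1 - 2 * σ) *
        ∑ ρ ∈ Zf χ (1 / 2) X, mu χ ρ * X ^ (2 * (ρ.re - 1 / 2)) / ‖ρ‖ ^ 2 :=
        Finset.sum_le_sum fun χ _ => h4 χ
    _ = 4 * T ^ 2 * X ^ (1 - 2 * σ) * ZZ q (1 / 2) X X := by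
        rw [← Finset.mul_sum]
        rfl
    _ ≤ 4 * T ^ 2 * X ^ (1 - 2 * σ) * ((X ^ ε * X ^ ε) * (Nat.totient q : ℝ)) := by gcongr
    _ ≤ X ^ ε * T ^ 2 * X ^ (1 - 2 * σ) * ((X ^ ε * X ^ ε) * (Nat.totient q : ℝ)) := by gcongr
    _ = (Nat.totient q : ℝ) * T ^ 2 * (X ^ (1 - 2 * σ) * X ^ ε * X ^ ε * X ^ ε) := by ring
    _ = (Nat.totient q : ℝ) * T ^ 2 * X ^ (1 - 2 * σ + 3 * ε) := by
        rw [← Real.rpow_add hX0, ← Real.rpow_add hX0, ← Real.rpow_add hX0]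
        congr 2
        ring

/-- one term of the zero sum is at most a sum over boxes -/
lemma box_bound (X ε : ℝ) (hX : 1 ≤ X) (hε : 0 < ε) (I J : ℕ) (hI : X ≤ 2 ^ I)
    (hJ : 1 ≤ (J + 1 : ℝ) * ε) (ρ : ℂ) (h1 : 1 / 2 ≤ ρ.re) (h2 : ρ.re < 1) (h3 : |ρ.im| ≤ X) :
    X ^ (2 * (ρ.re - 1 / 2)) / ‖ρ‖ ^ 2 ≤ ∑ i ∈ Finset.range (I + 1), ∑ j ∈ Finset.range (J + 1),
      if 1 / 2 + j * ε / 2 ≤ ρ.re ∧ |ρ.im| ≤ min (2 ^ i) X then
        X ^ ((j + 1) * ε) * (4 / (2 ^ i) ^ 2) else (0 : ℝ) := by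
  classical
  have hX0 : 0 < X := by linarith
  have hex : ∃ i : ℕ, |ρ.im| ≤ 2 ^ i := ⟨I, h3.trans hI⟩
  set i := Nat.find hex with hi
  have hi1 : |ρ.im| ≤ 2 ^ i := Nat.find_spec hex
  have hiI : i ≤ I := Nat.find_min' hex (h3.trans hI)
  set j := ⌊(2 * (ρ.re - 1 / 2)) / ε⌋₊ with hj
  have hj0 : 0 ≤ (2 * (ρ.re - 1 / 2)) / ε := div_nonneg (by linarith) hε.le
  have hj1 : (j : ℝ) * ε ≤ 2 * (ρ.re - 1 / 2) := by
    have := Nat.floor_le hj0
    rw [le_div_iff₀ hε] at this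
    exact this
  have hj2 : 2 * (ρ.re - 1 / 2) ≤ (j + 1 : ℝ) * ε := by
    have := (Nat.lt_floor_add_one ((2 * (ρ.re - 1 / 2)) / ε)).le
    rw [div_le_iff₀ hε] at this
    exact this
  have hjJ : j ≤ J := by
    by_contra hcon
    have h5 : J + 1 ≤ j := by omega
    have h6 : ((J : ℝ) + 1) ≤ j := by exact_mod_cast h5
    have h7 : ((J : ℝ) + 1) * ε ≤ j * ε := by gcongr
    linarith
  have hρ : 2 ^ i ≤ 2 * ‖ρ‖ := by
    rcases Nat.eq_zero_or_pos i with h0 | h0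
    · rw [h0, pow_zero]
      have h5 := Complex.abs_re_le_norm ρ
      rw [abs_of_nonneg (by linarith)] at h5
      linarith
    · have h5 : ¬ |ρ.im| ≤ 2 ^ (i - 1) := Nat.find_min hex (by omega)
      have h6 := Complex.abs_im_le_norm ρ
      have h7 : (2 : ℝ) ^ i = 2 * 2 ^ (i - 1) := by
        rw [← pow_succ']
        congr 1
        omega
      rw [h7]
      linarith [not_le.1 h5]
  have hρ0 : 0 < ‖ρ‖ := by
    have : (0 : ℝ) < 2 ^ i := by positivity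
    linarith
  have hterm : X ^ (2 * (ρ.re - 1 / 2)) / ‖ρ‖ ^ 2 ≤ X ^ ((j + 1) * ε) * (4 / (2 ^ i) ^ 2) := by
    have h5 : X ^ (2 * (ρ.re - 1 / 2)) ≤ X ^ ((j + 1) * ε) :=
      Real.rpow_le_rpow_of_exponent_le hX hj2
    have h6 : 1 / ‖ρ‖ ^ 2 ≤ 4 / (2 ^ i) ^ 2 := by
      rw [div_le_div_iff₀ (by positivity) (by positivity), one_mul]
      calc ((2 : ℝ) ^ i) ^ 2 ≤ (2 * ‖ρ‖) ^ 2 := by gcongr
        _ = 4 * ‖ρ‖ ^ 2 := by ring
    calc X ^ (2 * (ρ.re - 1 / 2)) / ‖ρ‖ ^ 2 = X ^ (2 * (ρ.re - 1 / 2)) * (1 / ‖ρ‖ ^ 2) := by ring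
      _ ≤ _ := by gcongr
  have hnn : ∀ i' j' : ℕ, (0 : ℝ) ≤ if 1 / 2 + j' * ε / 2 ≤ ρ.re ∧ |ρ.im| ≤ min (2 ^ i') X then
        X ^ ((j' + 1) * ε) * (4 / (2 ^ i') ^ 2) else (0 : ℝ) := by
    intro i' j'
    split_ifs
    · positivity
    · exact le_rfl
  calc X ^ (2 * (ρ.re - 1 / 2)) / ‖ρ‖ ^ 2
      ≤ X ^ ((j + 1) * ε) * (4 / (2 ^ i) ^ 2) := hterm
    _ = if 1 / 2 + j * ε / 2 ≤ ρ.re ∧ |ρ.im| ≤ min (2 ^ i) X then
        X ^ ((j + 1) * ε) * (4 / (2 ^ i) ^ 2) else (0 : ℝ) := by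
        rw [if_pos ⟨by linarith, le_min hi1 h3⟩]
    _ ≤ ∑ j ∈ Finset.range (J + 1), _ := Finset.single_le_sum
        (f := fun j' : ℕ => if 1 / 2 + j' * ε / 2 ≤ ρ.re ∧ |ρ.im| ≤ min (2 ^ i) X then
        X ^ ((j' + 1) * ε) * (4 / (2 ^ i) ^ 2) else (0 : ℝ)) (fun j' _ => hnn i j')
        (Finset.mem_range.2 (by omega))
    _ ≤ _ := Finset.single_le_sum
        (f := fun i' : ℕ => ∑ j' ∈ Finset.range (J + 1),
          if 1 / 2 + j' * ε / 2 ≤ ρ.re ∧ |ρ.im| ≤ min (2 ^ i') X then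
        X ^ ((j' + 1) * ε) * (4 / (2 ^ i') ^ 2) else (0 : ℝ))
        (fun i' _ => Finset.sum_nonneg fun j' _ => hnn i' j')
        (Finset.mem_range.2 (by omega))

/-- The density of the zeros controls the variance. -/
theorem variance_of_density (ε : ℝ) (hε : 0 < ε) : ∃ X₀ : ℝ, 1 ≤ X₀ ∧
    ∀ (q : ℕ) [NeZero q] (X : ℝ), (q : ℝ) ≤ X → X₀ ≤ X →
    (∀ σ T : ℝ, 1 / 2 ≤ σ → 1 ≤ T → T ≤ X →
      ∑ χ : DirichletCharacter ℂ q, ∑ ρ ∈ Zf χ σ T, mu χ ρ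
        ≤ (Nat.totient q : ℝ) * T ^ 2 * X ^ (1 - 2 * σ + ε)) →
    ∫ y in (1 : ℝ)..X, V y q / y ^ 2 ≤ X ^ (4 * ε) := by
  obtain ⟨K, X₁, hK, hX₁, h⟩ := two_sided 1 ε hε
  set J : ℕ := ⌈1 / ε⌉₊ with hJdef
  have hJ : 1 ≤ (J + 1 : ℝ) * ε := by
    have h1 : 1 / ε ≤ (J : ℝ) := Nat.le_ceil _
    rw [div_le_iff₀ hε] at h1
    nlinarith
  obtain ⟨X₂, hX₂⟩ := Filter.eventually_atTop.mp
    ((evX_const (8 * (J + 1)) (ε / 2) (by linarith)).and
      ((evX_log 8 (ε / 2) (by linarith)).and (evX_logC 1)))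
  refine ⟨max X₁ (max X₂ 2), le_trans hX₁ (le_max_left _ _), fun q _ X hqX hX hD => ?_⟩
  have hXX₁ : X₁ ≤ X := le_trans (le_max_left _ _) hX
  have hXX₂ : X₂ ≤ X := le_trans ((le_max_left _ _).trans (le_max_right _ _)) hX
  have hX1 : 1 ≤ X := hX₁.trans hXX₁
  have hX0 : 0 < X := by linarith
  obtain ⟨hc1, hc2, hc3⟩ := hX₂ X hXX₂
  have htot : (0 : ℝ) < Nat.totient q := by
    exact_mod_cast Nat.totient_pos.mpr (Nat.pos_of_ne_zero (NeZero.ne q))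
  -- the number of dyadic heights
  obtain ⟨n, hn1, hn2⟩ := exists_nat_pow_near hX1 (by norm_num : (1 : ℝ) < 2)
  set I : ℕ := n + 1 with hI
  have hI1 : X ≤ 2 ^ I := hn2.le
  have hI2 : ((I : ℝ) + 1) ≤ 4 * Real.log X := by
    have h4 : (n : ℝ) * Real.log 2 ≤ Real.log X := by
      rw [← Real.log_pow]
      exact Real.log_le_log (by positivity) hn1
    have h5 : (0.5 : ℝ) ≤ Real.log 2 := by
      have := Real.log_two_gt_d9
      linarith
    have h6 : (n : ℝ) * 0.5 ≤ (n : ℝ) * Real.log 2 := by gcongr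
    rw [hI]
    push_cast
    linarith
  have hZ : ZZ q (1 / 2) X X ≤ (Nat.totient q : ℝ) * (4 * (I + 1) * (J + 1) * X ^ (2 * ε)) := by
    unfold ZZ
    calc ∑ χ : DirichletCharacter ℂ q, ∑ ρ ∈ Zf χ (1 / 2) X,
          mu χ ρ * X ^ (2 * (ρ.re - 1 / 2)) / ‖ρ‖ ^ 2
        ≤ ∑ χ : DirichletCharacter ℂ q, ∑ ρ ∈ Zf χ (1 / 2) X,
          ∑ i ∈ Finset.range (I + 1), ∑ j ∈ Finset.range (J + 1),
          (X ^ ((j + 1) * ε) * (4 / (2 ^ i) ^ 2)) *
            (if 1 / 2 + j * ε / 2 ≤ ρ.re ∧ |ρ.im| ≤ min (2 ^ i) X then mu χ ρ else 0) := by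
          refine Finset.sum_le_sum fun χ _ => Finset.sum_le_sum fun ρ hρ => ?_
          rw [mem_Zf] at hρ
          have h1 := box_bound X ε hX1 hε I J hI1 hJ ρ hρ.2.1 (Zf_re_lt χ ρ hρ.1) hρ.2.2
          have h2 := mu_nonneg χ ρ
          calc mu χ ρ * X ^ (2 * (ρ.re - 1 / 2)) / ‖ρ‖ ^ 2
              = mu χ ρ * (X ^ (2 * (ρ.re - 1 / 2)) / ‖ρ‖ ^ 2) := by ring
            _ ≤ mu χ ρ * _ := mul_le_mul_of_nonneg_left h1 h2
            _ = _ := by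
                rw [Finset.mul_sum]
                refine Finset.sum_congr rfl fun i _ => ?_
                rw [Finset.mul_sum]
                refine Finset.sum_congr rfl fun j _ => ?_
                split_ifs <;> ring
      _ = ∑ i ∈ Finset.range (I + 1), ∑ j ∈ Finset.range (J + 1),
          (X ^ ((j + 1) * ε) * (4 / (2 ^ i) ^ 2)) *
            ∑ χ : DirichletCharacter ℂ q, ∑ ρ ∈ Zf χ (1 / 2) X,
            (if 1 / 2 + j * ε / 2 ≤ ρ.re ∧ |ρ.im| ≤ min (2 ^ i) X then mu χ ρ else 0) := by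
          have e1 : ∀ χ : DirichletCharacter ℂ q, ∑ ρ ∈ Zf χ (1 / 2) X,
              ∑ i ∈ Finset.range (I + 1), ∑ j ∈ Finset.range (J + 1),
              (X ^ ((j + 1) * ε) * (4 / (2 ^ i) ^ 2)) *
                (if 1 / 2 + j * ε / 2 ≤ ρ.re ∧ |ρ.im| ≤ min (2 ^ i) X then mu χ ρ else 0)
              = ∑ i ∈ Finset.range (I + 1), ∑ j ∈ Finset.range (J + 1), ∑ ρ ∈ Zf χ (1 / 2) X,
              (X ^ ((j + 1) * ε) * (4 / (2 ^ i) ^ 2)) *
                (if 1 / 2 + j * ε / 2 ≤ ρ.re ∧ |ρ.im| ≤ min (2 ^ i) X then mu χ ρ else 0) := by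
            intro χ
            rw [Finset.sum_comm]
            refine Finset.sum_congr rfl fun i _ => ?_
            rw [Finset.sum_comm]
          rw [Finset.sum_congr rfl fun χ _ => e1 χ, Finset.sum_comm]
          refine Finset.sum_congr rfl fun i _ => ?_
          rw [Finset.sum_comm]
          refine Finset.sum_congr rfl fun j _ => ?_
          rw [Finset.mul_sum]
          refine Finset.sum_congr rfl fun χ _ => ?_
          rw [Finset.mul_sum]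
      _ ≤ ∑ i ∈ Finset.range (I + 1), ∑ j ∈ Finset.range (J + 1),
          (Nat.totient q : ℝ) * (4 * X ^ (2 * ε)) := by
          refine Finset.sum_le_sum fun i _ => Finset.sum_le_sum fun j _ => ?_
          set T : ℝ := min (2 ^ i) X with hT
          have hT1 : 1 ≤ T := le_min (one_le_pow₀ (by norm_num)) hX1
          have hTX : T ≤ X := min_le_right _ _
          have hT2 : T ≤ 2 ^ i := min_le_left _ _
          have hj0 : (0 : ℝ) ≤ j := Nat.cast_nonneg _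
          have h1 := hD (1 / 2 + j * ε / 2) T (by
            have : 0 ≤ j * ε / 2 := by positivity
            linarith) hT1 hTX
          have h2 : ∀ χ : DirichletCharacter ℂ q, ∑ ρ ∈ Zf χ (1 / 2) X,
              (if 1 / 2 + j * ε / 2 ≤ ρ.re ∧ |ρ.im| ≤ T then mu χ ρ else 0)
              ≤ ∑ ρ ∈ Zf χ (1 / 2 + j * ε / 2) T, mu χ ρ := by
            intro χ
            rw [← Finset.sum_filter]
            refine Finset.sum_le_sum_of_subset_of_nonneg ?_ fun ρ _ _ => mu_nonneg χ ρ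
            intro ρ hρ
            rw [Finset.mem_filter, mem_Zf] at hρ
            rw [mem_Zf]
            exact ⟨hρ.1.1, hρ.2.1, hρ.2.2⟩
          calc (X ^ ((j + 1) * ε) * (4 / (2 ^ i) ^ 2)) *
                ∑ χ : DirichletCharacter ℂ q, ∑ ρ ∈ Zf χ (1 / 2) X,
                (if 1 / 2 + j * ε / 2 ≤ ρ.re ∧ |ρ.im| ≤ T then mu χ ρ else 0)
              ≤ (X ^ ((j + 1) * ε) * (4 / (2 ^ i) ^ 2)) *
                ((Nat.totient q : ℝ) * T ^ 2 * X ^ (1 - 2 * (1 / 2 + j * ε / 2) + ε)) := by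
                refine mul_le_mul_of_nonneg_left ?_ (by positivity)
                exact (Finset.sum_le_sum fun χ _ => h2 χ).trans h1
            _ ≤ (X ^ ((j + 1) * ε) * (4 / (2 ^ i) ^ 2)) *
                ((Nat.totient q : ℝ) * (2 ^ i) ^ 2 * X ^ (1 - 2 * (1 / 2 + j * ε / 2) + ε)) := by
                have hT0 : 0 ≤ T := by linarith
                gcongr
            _ = (Nat.totient q : ℝ) * (4 *
                (X ^ ((j + 1) * ε) * X ^ (1 - 2 * (1 / 2 + j * ε / 2) + ε))) := by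
                have : (2 : ℝ) ^ i ≠ 0 := by positivity
                field_simp
            _ = (Nat.totient q : ℝ) * (4 * X ^ (2 * ε)) := by
                rw [← Real.rpow_add hX0]
                congr 3
                ring
      _ = _ := by
          rw [Finset.sum_const, Finset.sum_const, Finset.card_range, Finset.card_range,
            nsmul_eq_mul, nsmul_eq_mul]
          push_cast
          ring
  have h1 := (h q X X (1 / 2) hqX hXX₁ le_rfl).1 le_rfl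
  have e1 : ∫ y in Ioc 1 X, V y q * y ^ (-1 - 2 * (1 / 2) : ℝ)
      = ∫ y in Ioc 1 X, V y q / y ^ 2 := by
    refine setIntegral_congr_fun measurableSet_Ioc fun y hy => ?_
    have hy0 : 0 < y := by linarith [hy.1]
    show V y q * y ^ (-1 - 2 * (1 / 2) : ℝ) = V y q / y ^ 2
    rw [show (-1 - 2 * (1 / 2) : ℝ) = -(2 : ℕ) by norm_num, Real.rpow_neg hy0.le,
      Real.rpow_natCast]
    rfl
  rw [e1] at h1
  rw [intervalIntegral.integral_of_le hX1]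
  have hJ0 : (0 : ℝ) ≤ J := Nat.cast_nonneg _
  have hI0 : (0 : ℝ) ≤ I := Nat.cast_nonneg _
  have hXe : 1 ≤ X ^ (2 * ε) := Real.one_le_rpow hX1 (by linarith)
  have h2 : ZZ q (1 / 2) X X / (Nat.totient q : ℝ) ≤ 4 * (I + 1) * (J + 1) * X ^ (2 * ε) := by
    rw [div_le_iff₀ htot]
    linarith
  calc ∫ y in Ioc 1 X, V y q / y ^ 2
      ≤ X ^ ε * (1 + ZZ q (1 / 2) X X / (Nat.totient q : ℝ)) := h1
    _ ≤ X ^ ε * (1 + 4 * (I + 1) * (J + 1) * X ^ (2 * ε)) := by gcongr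
    _ ≤ X ^ ε * ((I + 1) * (J + 1) * X ^ (2 * ε) + 4 * (I + 1) * (J + 1) * X ^ (2 * ε)) := by
        have : (1 : ℝ) ≤ (I + 1) * (J + 1) * X ^ (2 * ε) := by
          have a1 : (1 : ℝ) ≤ (I + 1) := by linarith
          have a2 : (1 : ℝ) ≤ (J + 1) := by linarith
          calc (1 : ℝ) = 1 * 1 * 1 := by norm_num
            _ ≤ (I + 1) * (J + 1) * X ^ (2 * ε) := by gcongr
        gcongr
    _ = X ^ ε * ((I + 1) * (5 * (J + 1)) * X ^ (2 * ε)) := by ring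
    _ ≤ X ^ ε * ((4 * Real.log X) * (5 * (J + 1)) * X ^ (2 * ε)) := by gcongr
    _ ≤ X ^ ε * ((8 * Real.log X) * (8 * (J + 1)) * X ^ (2 * ε)) := by
        have : 0 ≤ Real.log X := by linarith
        gcongr <;> norm_num
    _ ≤ X ^ ε * (X ^ (ε / 2) * X ^ (ε / 2) * X ^ (2 * ε)) := by
        have : 0 ≤ Real.log X := by linarith
        gcongr
    _ = X ^ (4 * ε) := by
        rw [← Real.rpow_add hX0, ← Real.rpow_add hX0, ← Real.rpow_add hX0]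
        congr 1
        ring

end Pool.Agent.TS
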