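import Pool.Agent.Lib.MP_9cfc0a_nt.Mg.G076
import Pool.Agent.Lib.MP_9cfc0a_nt.TS.Defs
import Pool.Agent.Lib.MP_9cfc0a_nt.Mg.G077

/-!
# Lg: Mellin transform of powers of the logarithm
-/

set_option autoImplicit false

namespace Pool.Agent.TS

open Complex Metric Set MeasureTheory
open Pool.Agent.EM

private lemma Lg_image : Real.exp '' (Ioi 0) = Ioi (1 : ℝ) := by
  ext x
  constructor
  · rintro ⟨u, hu, rfl⟩
    exact Real.one_lt_exp_iff.2 hu
  · intro hx
    have hx' : (0 : ℝ) < x := lt_trans one_pos hx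
    exact ⟨Real.log x, Real.log_pos hx, Real.exp_log hx'⟩

private lemma Lg_sub (n : ℕ) (w : ℂ) (u : ℝ) :
    |Real.exp u| • ((Real.log (Real.exp u) : ℂ) ^ n * ((Real.exp u : ℝ) : ℂ) ^ (-(w + 1))) =
      (u : ℂ) ^ n * Complex.exp (-(w * u)) := by
  have h1 : ((Real.exp u : ℝ) : ℂ) ≠ 0 := by
    exact_mod_cast (Real.exp_pos u).ne'
  rw [Real.log_exp, abs_of_pos (Real.exp_pos u), Complex.cpow_def_of_ne_zero h1,
    ← Complex.ofReal_log (Real.exp_pos u).le, Real.log_exp, Complex.real_smul,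
    Complex.ofReal_exp]
  have h2 : Complex.exp (-(w * u)) = Complex.exp (u : ℂ) * Complex.exp ((u : ℂ) * (-(w + 1))) := by
    rw [← Complex.exp_add]
    congr 1
    ring
  rw [h2]
  ring

private lemma Lg_int (n : ℕ) (w : ℂ) (hw : 0 < w.re) :
    IntegrableOn (fun u : ℝ => (u : ℂ) ^ n * Complex.exp (-(w * u))) (Ioi 0) := by
  have h1 : IntegrableOn (fun x : ℝ => x ^ (n : ℝ) * Real.exp (-w.re * x ^ (1 : ℝ))) (Ioi 0) :=
    integrableOn_rpow_mul_exp_neg_mul_rpow (lt_of_lt_of_le (by norm_num) (Nat.cast_nonneg n))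
      one_pos hw
  refine Integrable.mono' h1 ?_ ?_
  · refine Continuous.aestronglyMeasurable ?_
    fun_prop
  · refine (ae_restrict_iff' measurableSet_Ioi).2 (Filter.Eventually.of_forall fun u hu => ?_)
    have hu' : (0 : ℝ) < u := hu
    rw [norm_mul, norm_pow, Complex.norm_real, Real.norm_eq_abs, abs_of_pos hu',
      Complex.norm_exp, Real.rpow_natCast, Real.rpow_one]
    simp

private lemma Lg_J (w : ℂ) (hw : 0 < w.re) (n : ℕ) :
    ∫ u in Ioi (0 : ℝ), (u : ℂ) ^ n * Complex.exp (-(w * u)) = (n.factorial : ℂ) / w ^ (n + 1) := by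
  have hw0 : w ≠ 0 := by
    rintro rfl
    simp at hw
  induction n with
  | zero =>
    have h1 := integral_exp_mul_complex_Ioi (a := -w) (by simpa using hw) 0
    simp only [pow_zero, one_mul, Nat.factorial_zero, Nat.cast_one, zero_add, pow_one]
    simp only [neg_mul, Complex.ofReal_zero, mul_zero, Complex.exp_zero] at h1
    rw [h1]
    field_simp
  | succ n ih =>
    have hint := Lg_int n w hw
    have hint1 := Lg_int (n + 1) w hw
    have hderiv : ∀ x ∈ Ioi (0 : ℝ), HasDerivAt (fun u : ℝ => (u : ℂ) ^ (n + 1) *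
        Complex.exp (-(w * u))) (((n : ℂ) + 1) * ((x : ℂ) ^ n * Complex.exp (-(w * x))) -
          w * ((x : ℂ) ^ (n + 1) * Complex.exp (-(w * x)))) x := by
      intro x _
      have h1 : HasDerivAt (fun z : ℂ => z ^ (n + 1) * Complex.exp (-(w * z)))
          (((n + 1 : ℕ) : ℂ) * (x : ℂ) ^ (n + 1 - 1) * Complex.exp (-(w * x)) +
            (x : ℂ) ^ (n + 1) * (Complex.exp (-(w * x)) * (-(w * 1)))) (x : ℂ) :=
        (hasDerivAt_pow (n + 1) (x : ℂ)).mul (((hasDerivAt_id (x : ℂ)).const_mul w).neg.cexp)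
      convert h1.comp_ofReal using 1
      rw [Nat.add_sub_cancel]
      push_cast
      ring
    have hf' : IntegrableOn (fun x : ℝ => ((n : ℂ) + 1) * ((x : ℂ) ^ n * Complex.exp (-(w * x))) -
          w * ((x : ℂ) ^ (n + 1) * Complex.exp (-(w * x)))) (Ioi 0) :=
      (hint.const_mul _).sub (hint1.const_mul _)
    have hlim := tendsto_zero_of_hasDerivAt_of_integrableOn_Ioi hderiv hf' hint1
    have h2 := integral_Ioi_of_hasDerivAt_of_tendsto (by fun_prop) hderiv hf' hlim
    rw [integral_sub (hint.const_mul _) (hint1.const_mul _), integral_const_mul, integral_const_mul,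
      ih] at h2
    have h3 : w * ∫ u in Ioi (0 : ℝ), (u : ℂ) ^ (n + 1) * Complex.exp (-(w * u)) =
        ((n : ℂ) + 1) * ((n.factorial : ℂ) / w ^ (n + 1)) := by
      have h4 : (0 : ℂ) - ((0 : ℝ) : ℂ) ^ (n + 1) * Complex.exp (-(w * ((0 : ℝ) : ℂ))) = 0 := by
        simp
      rw [h4] at h2
      linear_combination -h2
    have h5 := congrArg (fun z => z / w) h3
    simp only [mul_div_cancel_left₀ _ hw0] at h5
    rw [h5, Nat.factorial_succ]
    push_cast
    field_simp
    ring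

/-- Lg. PROOF. This is `MT (fun x => (log x)^n) w`. By induction on `n` with `W1_deriv` (file
EMPsi.lean; `MT (log^n)` has the derivative `- MT (log^(n+1))` on `Re > 0`, the bound
`(log t)^n ≤ C t^σ` for every `σ > 0` is `W1_log_pow`), start `MT 1 w = 1 / w`
(`integral_Ioi_cpow_of_lt`), and the derivative of `n! / w^(n+1)`; integrability: `MC.MT_integrable`
(An2.lean). Or substitute `x = e^u` and use `Complex.integral_cpow_mul_exp_neg_mul_Ioi` and
`Complex.Gamma_nat_eq_factorial`. -/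
lemma integral_log_pow (n : ℕ) (w : ℂ) (hw : 0 < w.re) :
    IntegrableOn (fun x : ℝ => (Real.log x : ℂ) ^ n * (x : ℂ) ^ (-(w + 1))) (Ioi 1) ∧
    ∫ x in Ioi (1 : ℝ), (Real.log x : ℂ) ^ n * (x : ℂ) ^ (-(w + 1))
      = (n.factorial : ℂ) / w ^ (n + 1) := by
  have hd : ∀ x ∈ Ioi (0 : ℝ), HasDerivWithinAt Real.exp (Real.exp x) (Ioi 0) x :=
    fun x _ => (Real.hasDerivAt_exp x).hasDerivWithinAt
  have hinj : InjOn Real.exp (Ioi (0 : ℝ)) := Real.exp_injective.injOn
  rw [← Lg_image]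
  constructor
  · rw [integrableOn_image_iff_integrableOn_abs_deriv_smul measurableSet_Ioi hd hinj]
    simp only [Lg_sub]
    exact Lg_int n w hw
  · rw [integral_image_eq_integral_abs_deriv_smul measurableSet_Ioi hd hinj]
    simp only [Lg_sub]
    exact Lg_J w hw n

end Pool.Agent.TS
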